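import Mathlib

/-! # The transfer principle for the 3-torsion of class groups: statements of the pieces (Mathlib only)

Owner helper79.  Project TW (MP_695920_nt): for number fields `E ⊆ K`, `[K:ℚ] = n`,
`|Cl_K[3]| ≤ C |disc K|^ε (|disc K| / |disc E|)^(1/2) |Cl_E[3]|`. -/

set_option autoImplicit false

namespace Pool.Agent.K1H79.TW

open NumberField IsDedekindDomain
open scoped nonZeroDivisors Classical

/-- the number of the classes killed by `3` -/
noncomputable def h3 (L : Type) [Field L] [NumberField L] : ℕ :=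
  Nat.card {c : ClassGroup (𝓞 L) // c ^ 3 = 1}

/-- the number of ideals of norm `m` -/
noncomputable def rr (F : Type) [Field F] [NumberField F] (m : ℕ) : ℝ :=
  (Nat.card {𝔞 : Ideal (𝓞 F) // Ideal.absNorm 𝔞 = m} : ℝ)

/-- A: `g(s) = (s - 1) ζ_F(s)` is bounded by a power of the discriminant near `s = 2` -/
def S_ZB : Prop := ∀ n : ℕ, ∃ C A : ℝ, 0 < C ∧ 0 < A ∧ ∀ (F : Type) [Field F] [NumberField F],
  Module.finrank ℚ F ≤ n → ∃ g : ℂ → ℂ, DifferentiableOn ℂ g {s | 0 < s.re} ∧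
    (∀ s : ℂ, 1 < s.re → HasSum (fun m : ℕ => (rr F m : ℂ) * (m : ℂ) ^ (-s)) (g s / (s - 1))) ∧
    g 1 = (dedekindZeta_residue F : ℂ) ∧ ∀ s : ℂ, ‖s - 2‖ ≤ 3 / 2 → ‖g s‖ ≤ C * |(discr F : ℝ)| ^ A

/-- B: the Taylor coefficients of a Dirichlet series with a simple pole (pure analysis) -/
def S_TC : Prop := ∀ (g : ℂ → ℂ) (a : ℕ → ℝ) (G ρ : ℝ), DifferentiableOn ℂ g {s | 0 < s.re} →
  (∀ m, 0 ≤ a m) →
  (∀ s : ℂ, 1 < s.re → HasSum (fun m : ℕ => (a m : ℂ) * (m : ℂ) ^ (-s)) (g s / (s - 1))) →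
  g 1 = (ρ : ℂ) → (∀ s : ℂ, ‖s - 2‖ ≤ 3 / 2 → ‖g s‖ ≤ G) →
  ∀ (s0 : ℝ) (k : ℕ), 15 / 8 ≤ s0 → s0 ≤ 2 →
    Summable (fun m : ℕ => a m * (m : ℝ) ^ (-s0) * Real.log m ^ k) ∧
    |(∑' m : ℕ, a m * (m : ℝ) ^ (-s0) * Real.log m ^ k) / (k.factorial : ℝ) - ρ / (s0 - 1) ^ (k + 1)| ≤
      4 * G * (8 / 11) ^ k

/-- C: ideals of `K` and of a subfield `E` -/
def S_DOM : Prop := ∀ n : ℕ, ∀ ε : ℝ, 0 < ε → ∃ C : ℝ, 0 < C ∧
  ∀ (E K : Type) [Field E] [NumberField E] [Field K] [NumberField K] [Algebra E K],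
    Module.finrank ℚ K = n → ∀ m : ℕ, 1 ≤ m → rr K m ≤ C * (m : ℝ) ^ ε * rr E m

/-- lower bound for the residue -/
def S_LOW : Prop := ∀ n : ℕ, ∃ c : ℝ, 0 < c ∧ ∀ (F : Type) [Field F] [NumberField F],
  Module.finrank ℚ F ≤ n → c ≤ dedekindZeta_residue F * √|(discr F : ℝ)|

/-- comparison of the residues -/
def S_RHO : Prop := ∀ n : ℕ, ∀ ε : ℝ, 0 < ε → ∃ C : ℝ, 0 < C ∧
  ∀ (E K : Type) [Field E] [NumberField E] [Field K] [NumberField K] [Algebra E K],
    Module.finrank ℚ K = n → dedekindZeta_residue K ≤ C * |(discr K : ℝ)| ^ ε * dedekindZeta_residue E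

/-- D: assembly of `S_RHO` -/
def S_RHOof : Prop := S_ZB → S_TC → S_DOM → S_LOW → S_RHO

/-- E: the class number formula with constants which depend on the degree only -/
def S_CNF : Prop := ∀ n : ℕ, ∃ C : ℝ, 0 < C ∧ ∀ (F : Type) [Field F] [NumberField F],
  Module.finrank ℚ F ≤ n →
    (classNumber F : ℝ) * Units.regulator F ≤ C * (dedekindZeta_residue F * √|(discr F : ℝ)|) ∧
    dedekindZeta_residue F * √|(discr F : ℝ)| ≤ C * ((classNumber F : ℝ) * Units.regulator F)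

/-- F: units near the unit circle are roots of unity, uniformly in the field (Northcott, Kronecker) -/
def S_KRO : Prop := ∀ n : ℕ, ∃ c : ℝ, 0 < c ∧ ∀ (F : Type) [Field F] [NumberField F],
  Module.finrank ℚ F ≤ n → ∀ u : (𝓞 F)ˣ, (∀ w : InfinitePlace F, |Real.log (w ((u : 𝓞 F) : F))| ≤ c) →
    ∀ w : InfinitePlace F, w ((u : 𝓞 F) : F) = 1

/-- the number of points of the unit lattice in a cube -/
noncomputable def cnt (F : Type) [Field F] [NumberField F] (T : ℕ) : ℕ :=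
  Nat.card {x : Units.dirichletUnitTheorem.logSpace F // x ∈ Units.unitLattice F ∧ ∀ w, |x w| ≤ (T : ℝ)}

/-- G: asymptotics of the number of points -/
def S_CNT : Prop := ∀ (F : Type) [Field F] [NumberField F],
  Filter.Tendsto (fun T : ℕ => (cnt F T : ℝ) / (T : ℝ) ^ (Units.rank F)) Filter.atTop
    (nhds (2 ^ (Units.rank F) / Units.regulator F))

/-- H: units of `K`, units of `E` and relative units -/
def S_REL : Prop := S_KRO → ∀ n : ℕ, ∃ B : ℕ, 0 < B ∧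
  ∀ (E K : Type) [Field E] [NumberField E] [Field K] [NumberField K] [Algebra E K],
    Module.finrank ℚ K = n → Units.rank E ≤ Units.rank K ∧
    ∀ T : ℕ, 1 ≤ T → cnt K T ≤ cnt E (B * T) * (B * T ^ (Units.rank K - Units.rank E))

/-- comparison of the regulators -/
def S_REG : Prop := ∀ n : ℕ, ∃ C : ℝ, 0 < C ∧
  ∀ (E K : Type) [Field E] [NumberField E] [Field K] [NumberField K] [Algebra E K],
    Module.finrank ℚ K = n → Units.regulator E ≤ C * Units.regulator K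

/-- I: assembly of `S_REG` and `S_LOW` (take `E = ℚ`) -/
def S_REGof : Prop := S_KRO → S_CNT → S_REL → S_CNF → S_REG ∧ S_LOW

/-- J: a nontrivial character of the class group -/
def S_CHR : Prop := ∀ (F : Type) [Field F] [NumberField F] (χ : ClassGroup (𝓞 F) →* ℂˣ), χ ≠ 1 →
  ∃ C : ℝ, ∀ s : ℝ, 1 < s → s ≤ 2 →
    ∑' v : HeightOneSpectrum (𝓞 F),
      ((χ (ClassGroup.mk0 ⟨v.asIdeal, mem_nonZeroDivisors_of_ne_zero v.ne_bot⟩) : ℂˣ) : ℂ).re *
        ((Ideal.absNorm v.asIdeal : ℕ) : ℝ) ^ (-s) ≤ C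

/-- all primes -/
def S_ALL : Prop := ∀ (F : Type) [Field F] [NumberField F], ∃ C : ℝ, ∀ s : ℝ, 1 < s → s ≤ 2 →
  |∑' v : HeightOneSpectrum (𝓞 F), ((Ideal.absNorm v.asIdeal : ℕ) : ℝ) ^ (-s) -
    Real.log (1 / (s - 1))| ≤ C

/-- `N` is the norm on the class groups -/
def IsNm (E K : Type) [Field E] [NumberField E] [Field K] [NumberField K] [Algebra E K]
    (N : ClassGroup (𝓞 K) →* ClassGroup (𝓞 E)) : Prop :=
  ∀ (I : (Ideal (𝓞 K))⁰) (J : (Ideal (𝓞 E))⁰), (J : Ideal (𝓞 E)) = Ideal.relNorm (𝓞 E) (I : Ideal (𝓞 K)) →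
    N (ClassGroup.mk0 I) = ClassGroup.mk0 J

/-- K: the norms have index at most `[K:E]` -/
def S_IDX : Prop := S_CHR → S_ALL → ∀ (E K : Type) [Field E] [NumberField E] [Field K] [NumberField K]
  [Algebra E K] (N : ClassGroup (𝓞 K) →* ClassGroup (𝓞 E)), IsNm E K N →
    N.range.index ≤ Module.finrank E K

/-- L: existence of the norm -/
def S_NM : Prop := ∀ (E K : Type) [Field E] [NumberField E] [Field K] [NumberField K] [Algebra E K],
  ∃ N : ClassGroup (𝓞 K) →* ClassGroup (𝓞 E), IsNm E K N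

/-- **the transfer principle** -/
def S_T : Prop := ∀ n : ℕ, ∀ ε : ℝ, 0 < ε → ∃ C : ℝ, 0 < C ∧
  ∀ (E K : Type) [Field E] [NumberField E] [Field K] [NumberField K] [Algebra E K],
    Module.finrank ℚ K = n →
    (h3 K : ℝ) ≤ C * |(discr K : ℝ)| ^ ε * √(|(discr K : ℝ)| / |(discr E : ℝ)|) * h3 E

/-- M: assembly -/
def S_Tof : Prop := S_CNF → S_REG → S_RHO →
  (∀ (E K : Type) [Field E] [NumberField E] [Field K] [NumberField K] [Algebra E K],
    ∃ N : ClassGroup (𝓞 K) →* ClassGroup (𝓞 E), IsNm E K N ∧ N.range.index ≤ Module.finrank E K) → S_T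

end Pool.Agent.K1H79.TW
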