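import Pool.Agent.K1H79.TW.Tower2
import Pool.Agent.K1H20.TW.ZB
import Pool.Agent.K1H4.TW.Tc
import Pool.Agent.K1H74.TW.Dom
import Pool.Agent.K1H13.TW.RHOof
import Pool.Agent.K1H87.TW.Cnf
import Pool.Agent.K1H58.TW.Kro
import Pool.Agent.K1H74.TW.Cnt
import Pool.Agent.K1H80.TW.Rel
import Pool.Agent.K1H10.TW.REGof
import Pool.Agent.K1H90.TWC.Chr
import Pool.Agent.K1H43.TW.Idx
import Pool.Agent.K1H1.TW.Nm
import Pool.Agent.K1H1.TW.Tof

/-! # The transfer principle and the theorem on towers (helper79) -/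

set_option autoImplicit false

namespace Pool.Agent.K1H79.TW

open NumberField

theorem reg_low : S_REG ∧ S_LOW :=
  Pool.Agent.K1H10.TW.t_REGof Pool.Agent.K1H58.TW.t_KRO Pool.Agent.K1H74.TW.t_CNT Pool.Agent.K1H80.TW.t_REL
    Pool.Agent.K1H87.TW.t_CNF

theorem rho : S_RHO :=
  Pool.Agent.K1H13.TW.t_RHOof Pool.Agent.K1H20.TW.t_ZB Pool.Agent.K1H4.TW.t_TC Pool.Agent.K1H74.TW.t_DOM reg_low.2

/-- **the transfer principle** -/
theorem transfer : S_T := by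
  refine Pool.Agent.K1H1.TW.t_Tof Pool.Agent.K1H87.TW.t_CNF reg_low.1 rho ?_
  intro E K _ _ _ _ _
  obtain ⟨N, hN⟩ := Pool.Agent.K1H1.TW.t_NM E K
  exact ⟨N, hN, Pool.Agent.K1H43.TW.t_IDX Pool.Agent.K1H90.TWC.t_CHR Pool.Agent.K1H90.TWC.t_ALL E K N hN⟩

/-- **towers** -/
theorem tow2 : S_TOW2 := tow2_of (step_of evu cuu) transfer SX.t_TRIV

end Pool.Agent.K1H79.TW
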