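import Pool.Agent.K1H79.GE.StmA

set_option autoImplicit false

namespace Pool.Agent.K1H79.TW

open NumberField

theorem no_real_om {x : ℂ} (h : x ^ 2 + x + 1 = 0) (hx : (starRingEnd ℂ) x = x) : False := by
  obtain ⟨r, rfl⟩ := Complex.conj_eq_iff_real.1 hx
  have h1 : r ^ 2 + r + 1 = 0 := by exact_mod_cast h
  nlinarith [sq_nonneg (r + 1 / 2)]

theorem cc (K : Type) [Field K] [NumberField K] [IsGalois ℚ K] (ω : K) (hω : ω ^ 2 + ω + 1 = 0) :
    ∃ L : IntermediateField ℚ K, Module.finrank L K = 2 ∧ GE.NoOm L := by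
  obtain ⟨φ⟩ : Nonempty (K →+* ℂ) := inferInstance
  obtain ⟨σ, hσ⟩ := NumberField.ComplexEmbedding.exists_comp_symm_eq_of_comp_eq (k := ℚ) φ
    (NumberField.ComplexEmbedding.conjugate φ) (Subsingleton.elim _ _)
  obtain ⟨c, hc⟩ : ∃ c : Gal(K/ℚ), c = σ⁻¹ := ⟨_, rfl⟩
  have hcφ : ∀ x : K, φ (c x) = (starRingEnd ℂ) (φ x) := by
    intro x
    have h1 := RingHom.congr_fun hσ x
    rw [hc]
    exact h1
  have hc2 : c ^ 2 = 1 := by
    ext x
    apply φ.injective
    rw [pow_two]
    change φ (c (c x)) = φ x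
    rw [hcφ, hcφ, Complex.conj_conj]
  have hc1 : c ≠ 1 := by
    intro h
    have h1 := hcφ ω
    rw [h] at h1
    have h2 : (φ ω) ^ 2 + φ ω + 1 = 0 := by
      rw [← map_pow, ← map_add, ← map_one φ, ← map_add, hω, map_zero]
    exact no_real_om h2 h1.symm
  have hord : orderOf c = 2 := orderOf_eq_prime hc2 hc1
  refine ⟨IntermediateField.fixedField (Subgroup.zpowers c), ?_, ?_⟩
  · rw [IntermediateField.finrank_fixedField_eq_card, Nat.card_zpowers, hord]
  · intro z hz
    have h1 := (IntermediateField.mem_fixedField_iff _ (z : K)).1 z.2 c (Subgroup.mem_zpowers c)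
    have h2 := hcφ (z : K)
    rw [h1] at h2
    have h4 : (z : K) ^ 2 + (z : K) + 1 = 0 := by
      have := congrArg (fun t : IntermediateField.fixedField (Subgroup.zpowers c) => (t : K)) hz
      simpa using this
    have h3 : (φ (z : K)) ^ 2 + φ (z : K) + 1 = 0 := by
      rw [← map_pow, ← map_add, ← map_one φ, ← map_add, h4, map_zero]
    exact no_real_om h3 h2.symm

end Pool.Agent.K1H79.TW
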