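import Pool.Agent.K1H79.TW.GStm

set_option autoImplicit false

namespace Pool.Agent.K1H79.TW

open NumberField
open scoped IntermediateField Polynomial

theorem fin2 {K : Type} [Field K] [NumberField K] (ω : K) (hω : ω ^ 2 + ω + 1 = 0)
    (F : IntermediateField ℚ K) (hF : GE.NoOm F) : Module.finrank F F⟮ω⟯ = 2 := by
  have hint : IsIntegral F ω := Algebra.IsIntegral.isIntegral ω
  rw [IntermediateField.adjoin.finrank hint]
  have h1 : minpoly F ω ∣ (Polynomial.X ^ 2 + Polynomial.X + 1 : F[X]) := by
    apply minpoly.dvd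
    simpa using hω
  have hdeg : (Polynomial.X ^ 2 + Polynomial.X + 1 : F[X]).natDegree = 2 := by
    compute_degree!
  have hne : (Polynomial.X ^ 2 + Polynomial.X + 1 : F[X]) ≠ 0 := by
    intro h
    rw [h, Polynomial.natDegree_zero] at hdeg
    exact absurd hdeg (by norm_num)
  have h2 := Polynomial.natDegree_le_of_dvd h1 hne
  rw [hdeg] at h2
  have h3 := minpoly.natDegree_pos hint
  have h4 : (minpoly F ω).natDegree ≠ 1 := by
    intro h
    obtain ⟨z, hz⟩ := minpoly.natDegree_eq_one_iff.1 h
    apply hF z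
    apply (algebraMap F K).injective
    rw [map_add, map_add, map_pow, map_one, map_zero, hz]
    exact hω
  omega

theorem om : S_OM := by
  intro hD K _ _ ω hω F hF
  obtain ⟨E, hE⟩ : ∃ E : IntermediateField ℚ K, E = F⟮ω⟯.restrictScalars ℚ := ⟨_, rfl⟩
  have h1 := fin2 ω hω F hF
  have h2 : Module.finrank F F⟮ω⟯ * Module.finrank F⟮ω⟯ K = Module.finrank F K := Module.finrank_mul_finrank _ _ _
  have h3 : Module.finrank E K = Module.finrank F⟮ω⟯ K := by
    subst hE
    rfl
  have hle : F ≤ E := by
    intro x hx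
    rw [hE]
    exact (F⟮ω⟯).algebraMap_mem ⟨x, hx⟩
  have hωE : ω ∈ E := by
    rw [hE]
    exact IntermediateField.mem_adjoin_simple_self F ω
  have h4 : Module.finrank F K = 2 * Module.finrank E K := by rw [h3, ← h2, h1]
  refine ⟨E, hle, h4, ?_⟩
  let _ : Algebra F E := (IntermediateField.inclusion hle).toRingHom.toAlgebra
  have hfin : FiniteDimensional F E := FiniteDimensional.right ℚ F E
  have h5 : Module.finrank ℚ F * Module.finrank F E = Module.finrank ℚ E := Module.finrank_mul_finrank _ _ _
  have h6 : Module.finrank ℚ F * Module.finrank F K = Module.finrank ℚ K := Module.finrank_mul_finrank _ _ _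
  have h7 : Module.finrank ℚ E * Module.finrank E K = Module.finrank ℚ K := Module.finrank_mul_finrank _ _ _
  have h8 : 0 < Module.finrank E K := Module.finrank_pos
  have h9 : 0 < Module.finrank ℚ F := Module.finrank_pos
  have h10 : Module.finrank F E = 2 := by
    have h11 : Module.finrank ℚ F * (Module.finrank F E * Module.finrank E K) =
        Module.finrank ℚ F * (2 * Module.finrank E K) := by
      rw [← mul_assoc, h5, h7, ← h6, h4]
    have h12 := Nat.eq_of_mul_eq_mul_left h9 h11
    exact Nat.eq_of_mul_eq_mul_right h8 h12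
  have h11 := (hD F E h10 (⟨ω, hωE⟩ : E) (by
    apply Subtype.ext
    simpa using hω) hF).2
  refine h11.trans ?_
  have h12 : Module.finrank ℚ F ≤ Module.finrank ℚ K := by
    rw [← h6]
    exact Nat.le_mul_of_pos_right _ Module.finrank_pos
  have h13 : (3 : ℝ) ^ Module.finrank ℚ F ≤ 3 ^ Module.finrank ℚ K := pow_le_pow_right₀ (by norm_num) h12
  gcongr

end Pool.Agent.K1H79.TW
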