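import Pool.Agent.K1H79.TW.GalAll
import Pool.Agent.K1H79.TW.CCx
import Pool.Agent.K1H79.TW.OMx

/-! # The closed theorems (helper79) -/

set_option autoImplicit false

namespace Pool.Agent.K1H79.TW

open NumberField

theorem t_CC : S_CC := fun K _ _ _ ω hω => cc K ω hω

theorem gal : S_GAL := gal_of' t_CC om

theorem fin : S_FIN := fin_of' t_CC om

end Pool.Agent.K1H79.TW
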