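import Pool.Agent.K1H79.TW.Stm
import Pool.Agent.K1H79.GE.StmB
import Pool.Agent.K1H79.SX.Stm

/-! # The 3-torsion of Galois number fields: statements of the pieces (owner helper79)

Project TW, part 2 (MP_695920_nt): `|Cl_K[3]| ≤ C |disc K|^(1/2 - δ)` for all Galois extensions `K/ℚ` of
degree `n` in which every central element `z` of prime order `p ≥ 5` of the Galois group is not alone, i.e. there
is an element of order `p` outside `⟨z⟩`. -/

set_option autoImplicit false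

namespace Pool.Agent.K1H79.TW

open NumberField

/-- every central element of prime order `p ≥ 5` has an element of the same order outside its powers -/
def Good3 (G : Type) [Group G] : Prop :=
  ∀ z ∈ Subgroup.center G, (orderOf z).Prime → 5 ≤ orderOf z →
    ∃ x : G, orderOf x = orderOf z ∧ x ∉ Subgroup.zpowers z

/-- BAD (pure group theory) -/
def S_BAD : Prop := ∀ (G : Type) [Group G] [Finite G] (M : Subgroup G), M.Normal → M ≠ ⊥ →
  (∀ g : G, ∃ x ∈ M, ∀ y ∈ M, y ∈ Subgroup.zpowers (g * x)) →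
  ∃ z ∈ Subgroup.center G, z ∈ M ∧ (orderOf z).Prime ∧
    ∀ y : G, orderOf y = orderOf z → y ∈ Subgroup.zpowers z

/-- QUO (pure group theory) -/
def S_QUO : Prop := ∀ (G Q : Type) [Group G] [Finite G] [Group Q] (π : G →* Q) (z : G),
  Function.Surjective π → z ∈ Subgroup.center G → orderOf z = 3 → π.ker = Subgroup.zpowers z →
    Good3 G → Good3 Q

/-- SML: the subfield generated by the subfields of small discriminant -/
def S_SML : Prop := ∀ n : ℕ, ∃ C : ℝ, 1 ≤ C ∧ ∀ (K : Type) [Field K] [NumberField K],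
  Module.finrank ℚ K = n → ∀ X : ℝ, 1 ≤ X → ∃ S : IntermediateField ℚ K,
    |(discr S : ℝ)| ≤ C * X ^ C ∧ ∀ F : IntermediateField ℚ K, |(discr F : ℝ)| ≤ X → F ≤ S

/-- CC: the fixed field of complex conjugation -/
def S_CC : Prop := ∀ (K : Type) [Field K] [NumberField K] [IsGalois ℚ K] (ω : K), ω ^ 2 + ω + 1 = 0 →
  ∃ L : IntermediateField ℚ K, Module.finrank L K = 2 ∧ GE.NoOm L

/-- CYC: cyclic cubic extensions -/
def S_CYC : Prop := ∀ m : ℕ, ∀ ε : ℝ, 0 < ε → ∃ C : ℝ, 0 < C ∧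
  ∀ (F L : Type) [Field F] [NumberField F] [Field L] [NumberField L] [Algebra F L] [IsGalois F L],
    Module.finrank ℚ F = m → Module.finrank F L = 3 →
      (h3 L : ℝ) ≤ C * |(discr L : ℝ)| ^ ε * |(discr F : ℝ)| ^ C

def S_CYCof : Prop := SX.S_C3 → SX.S_RAM → SX.S_TRIV → S_CYC

/-- TOSG: the case of many small primes -/
def S_TOSG : Prop := ∀ n : ℕ, 2 ≤ n → ∃ δ η C : ℝ, 0 < δ ∧ 0 < η ∧ 0 < C ∧
  ∀ (K : Type) [Field K] [NumberField K] [IsGalois ℚ K] (k : IntermediateField ℚ K),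
    Module.finrank ℚ K = n → |(discr k : ℝ)| ≤ |(discr K : ℝ)| ^ η →
    (h3 K : ℝ) ≤ C * |(discr K : ℝ)| ^ (1 / 2 - δ) ∨
      ∃ z ∈ Subgroup.center Gal(K/ℚ), z ∈ k.fixingSubgroup ∧ (orderOf z).Prime ∧
        ∀ y : Gal(K/ℚ), orderOf y = orderOf z → y ∈ Subgroup.zpowers z

/-- E3: the fixed field of a central element of order `3` -/
def S_E3 : Prop := S_QUO → ∀ (K : Type) [Field K] [NumberField K] [IsGalois ℚ K] (z : Gal(K/ℚ)),
  z ∈ Subgroup.center Gal(K/ℚ) → orderOf z = 3 → Good3 Gal(K/ℚ) →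
    ∃ E : IntermediateField ℚ K, IsGalois ℚ E ∧ IsGalois E K ∧ Module.finrank E K = 3 ∧ Good3 Gal(E/ℚ)

/-- OM: adjoining `ω` inside `K` -/
def S_OM : Prop := RF.S_DISC → ∀ (K : Type) [Field K] [NumberField K] (ω : K), ω ^ 2 + ω + 1 = 0 →
  ∀ F : IntermediateField ℚ K, GE.NoOm F → ∃ F' : IntermediateField ℚ K, F ≤ F' ∧
    Module.finrank F K = 2 * Module.finrank F' K ∧
    |(discr F' : ℝ)| ≤ 3 ^ Module.finrank ℚ K * |(discr F : ℝ)| ^ 2

/-- P2: the small subfield has even index -/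
def S_P2 : Prop := ∀ n : ℕ, 2 ≤ n → ∀ θ : ℝ, 0 < θ → ∃ δ C : ℝ, 0 < δ ∧ 0 < C ∧
  ∀ (K : Type) [Field K] [NumberField K] [IsGalois ℚ K], Module.finrank ℚ K = n →
    ∀ S : IntermediateField ℚ K, Even (Module.finrank S K) →
      (∀ F : IntermediateField ℚ K, |(discr F : ℝ)| ≤ |(discr K : ℝ)| ^ θ → F ≤ S) →
      (h3 K : ℝ) ≤ C * |(discr K : ℝ)| ^ (1 / 2 - δ)

def S_P2of : Prop := GE.S_GE → S_T → SX.S_TRIV → RF.S_DISC → S_CC → S_OM → S_P2

/-- P3: cyclic cubic steps -/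
def S_P3 : Prop := ∀ (m : ℕ) (δ3 C3 : ℝ), 0 < δ3 → 0 < C3 → ∃ δ C : ℝ, 0 < δ ∧ 0 < C ∧
  ∀ (E K : Type) [Field E] [NumberField E] [Field K] [NumberField K] [Algebra E K] [IsGalois E K],
    Module.finrank ℚ E = m → Module.finrank E K = 3 →
      (h3 E : ℝ) ≤ C3 * |(discr E : ℝ)| ^ (1 / 2 - δ3) →
      (h3 K : ℝ) ≤ C * |(discr K : ℝ)| ^ (1 / 2 - δ)

def S_P3of : Prop := S_T → S_CYC → S_P3

/-- the theorem on Galois fields -/
def S_GAL : Prop := ∀ n : ℕ, ∃ δ C : ℝ, 0 < δ ∧ 0 < C ∧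
  ∀ (K : Type) [Field K] [NumberField K] [IsGalois ℚ K], Module.finrank ℚ K = n → Good3 Gal(K/ℚ) →
      (h3 K : ℝ) ≤ C * |(discr K : ℝ)| ^ (1 / 2 - δ)

end Pool.Agent.K1H79.TW
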