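import Pool.Agent.K1H79.TW.Tower2
import Pool.Agent.K1H79.TW.GStm
import Pool.Agent.K1H79.Q4.Quart

/-! # Final statement: towers, Galois fields, and the fields above them (helper79) -/

set_option autoImplicit false

namespace Pool.Agent.K1H79.TW

open NumberField

/-- from a subfield of large discriminant to the field -/
theorem up (hT : S_T) (n : ℕ) (η δ1 C1 : ℝ) (hη : 0 < η) (hδ1 : 0 < δ1) (hC1 : 0 < C1) :
    ∃ δ C : ℝ, 0 < δ ∧ 0 < C ∧ ∀ (E K : Type) [Field E] [NumberField E] [Field K] [NumberField K] [Algebra E K],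
      Module.finrank ℚ K = n → |(discr K : ℝ)| ^ η ≤ |(discr E : ℝ)| →
      (h3 E : ℝ) ≤ C1 * |(discr E : ℝ)| ^ (1 / 2 - δ1) → (h3 K : ℝ) ≤ C * |(discr K : ℝ)| ^ (1 / 2 - δ) := by
  obtain ⟨ε, hε⟩ : ∃ ε : ℝ, ε = η * δ1 / 2 := ⟨_, rfl⟩
  have hε0 : 0 < ε := by rw [hε]; positivity
  obtain ⟨CT, hCT, hT⟩ := hT n ε hε0
  refine ⟨ε, CT * C1, hε0, by positivity, ?_⟩
  intro E K _ _ _ _ _ hK hE h
  have hD1 := one_le_D' K
  have hD0 : 0 < |(discr K : ℝ)| := by linarith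
  have hd1 := one_le_D' E
  have hd0 : 0 < |(discr E : ℝ)| := by linarith
  have h5 : |(discr E : ℝ)| ^ (-δ1) ≤ |(discr K : ℝ)| ^ (-(2 * ε)) := by
    have h6 : |(discr E : ℝ)| ^ (-δ1) ≤ (|(discr K : ℝ)| ^ η) ^ (-δ1) :=
      Real.rpow_le_rpow_of_nonpos (by positivity) hE (by linarith)
    rw [← Real.rpow_mul hD0.le] at h6
    have h7 : η * (-δ1) = -(2 * ε) := by rw [hε]; ring
    rwa [h7] at h6
  have h8 : √(|(discr K : ℝ)| / |(discr E : ℝ)|) * |(discr E : ℝ)| ^ (1 / 2 - δ1 : ℝ) =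
      |(discr K : ℝ)| ^ (1 / 2 : ℝ) * |(discr E : ℝ)| ^ (-δ1) := by
    rw [Real.sqrt_eq_rpow, Real.div_rpow hD0.le hd0.le, div_mul_eq_mul_div, mul_div_assoc,
      ← Real.rpow_sub hd0]
    congr 2
    ring
  calc (TW.h3 K : ℝ) ≤ CT * |(discr K : ℝ)| ^ ε * √(|(discr K : ℝ)| / |(discr E : ℝ)|) * TW.h3 E := hT E K hK
    _ ≤ CT * |(discr K : ℝ)| ^ ε * √(|(discr K : ℝ)| / |(discr E : ℝ)|) *
        (C1 * |(discr E : ℝ)| ^ (1 / 2 - δ1 : ℝ)) := mul_le_mul_of_nonneg_left h (by positivity)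
    _ = CT * C1 * |(discr K : ℝ)| ^ ε *
        (√(|(discr K : ℝ)| / |(discr E : ℝ)|) * |(discr E : ℝ)| ^ (1 / 2 - δ1 : ℝ)) := by ring
    _ = CT * C1 * |(discr K : ℝ)| ^ ε * (|(discr K : ℝ)| ^ (1 / 2 : ℝ) * |(discr E : ℝ)| ^ (-δ1)) := by rw [h8]
    _ ≤ CT * C1 * |(discr K : ℝ)| ^ ε * (|(discr K : ℝ)| ^ (1 / 2 : ℝ) * |(discr K : ℝ)| ^ (-(2 * ε))) := by
        gcongr
    _ = CT * C1 * |(discr K : ℝ)| ^ (1 / 2 - ε) := by
        rw [← Real.rpow_add hD0, mul_assoc (CT * C1), ← Real.rpow_add hD0]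
        congr 2
        ring

/-- the good fields: degree `4` or `6`, or Galois with the condition on the central elements -/
def GoodF (E : Type) [Field E] [NumberField E] : Prop :=
  Module.finrank ℚ E = 4 ∨ Module.finrank ℚ E = 6 ∨ (IsGalois ℚ E ∧ Good3 Gal(E/ℚ))

theorem min_pos (S : Finset ℕ) (f : ℕ → ℝ) (hf : ∀ i, 0 < f i) : ∃ δ : ℝ, 0 < δ ∧ ∀ i ∈ S, δ ≤ f i := by
  classical
  induction S using Finset.induction_on with
  | empty => exact ⟨1, one_pos, fun i hi => absurd hi (Finset.notMem_empty i)⟩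
  | insert a S ha ih =>
    obtain ⟨δ, hδ, h⟩ := ih
    refine ⟨min δ (f a), lt_min hδ (hf a), fun i hi => ?_⟩
    rcases Finset.mem_insert.1 hi with rfl | h3
    · exact min_le_right _ _
    · exact (min_le_left _ _).trans (h i h3)

theorem good_up (hT : S_T) (hG : S_GAL)
    (h4 : ∃ δ C : ℝ, 0 < δ ∧ 0 < C ∧ ∀ (L : Type) [Field L] [NumberField L],
      Module.finrank ℚ L = 4 → (h3 L : ℝ) ≤ C * |(discr L : ℝ)| ^ (1 / 2 - δ : ℝ))
    (h6 : ∃ δ C : ℝ, 0 < δ ∧ 0 < C ∧ ∀ (L : Type) [Field L] [NumberField L],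
      Module.finrank ℚ L = 6 → (h3 L : ℝ) ≤ C * |(discr L : ℝ)| ^ (1 / 2 - δ : ℝ))
    (n : ℕ) (η : ℝ) (hη : 0 < η) :
    ∃ δ C : ℝ, 0 < δ ∧ 0 < C ∧ ∀ (E K : Type) [Field E] [NumberField E] [Field K] [NumberField K] [Algebra E K],
      Module.finrank ℚ K = n → |(discr K : ℝ)| ^ η ≤ |(discr E : ℝ)| → GoodF E →
      (h3 K : ℝ) ≤ C * |(discr K : ℝ)| ^ (1 / 2 - δ) := by
  obtain ⟨δ4, C4, hδ4, hC4, h4⟩ := h4
  obtain ⟨δ6, C6, hδ6, hC6, h6⟩ := h6
  have key : ∀ m : ℕ, ∃ δ C : ℝ, 0 < δ ∧ 0 < C ∧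
      ∀ (E K : Type) [Field E] [NumberField E] [Field K] [NumberField K] [Algebra E K],
        Module.finrank ℚ E = m → Module.finrank ℚ K = n → |(discr K : ℝ)| ^ η ≤ |(discr E : ℝ)| → GoodF E →
        (h3 K : ℝ) ≤ C * |(discr K : ℝ)| ^ (1 / 2 - δ) := by
    intro m
    obtain ⟨δg, Cg, hδg, hCg, hg⟩ := hG m
    obtain ⟨δ, C, hδ, hC, h⟩ := up hT n η (min δg (min δ4 δ6)) (Cg + C4 + C6) hη
      (lt_min hδg (lt_min hδ4 hδ6)) (by positivity)
    refine ⟨δ, C, hδ, hC, ?_⟩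
    intro E K _ _ _ _ _ hE hK hEK hgood
    apply h E K hK hEK
    have hd1 := one_le_D' E
    have mono : ∀ (C' δ' : ℝ), 0 < C' → C' ≤ Cg + C4 + C6 → min δg (min δ4 δ6) ≤ δ' →
        C' * |(discr E : ℝ)| ^ (1 / 2 - δ') ≤ (Cg + C4 + C6) * |(discr E : ℝ)| ^ (1 / 2 - min δg (min δ4 δ6)) := by
      intro C' δ' h5 h6 h7
      have h8 : |(discr E : ℝ)| ^ (1 / 2 - δ') ≤ |(discr E : ℝ)| ^ (1 / 2 - min δg (min δ4 δ6)) :=
        Real.rpow_le_rpow_of_exponent_le hd1 (by linarith)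
      exact mul_le_mul h6 h8 (by positivity) (by linarith)
    rcases hgood with h5 | h5 | ⟨h5, h5'⟩
    · exact (h4 E h5).trans (mono C4 δ4 hC4 (by linarith) ((min_le_right _ _).trans (min_le_left _ _)))
    · exact (h6 E h5).trans (mono C6 δ6 hC6 (by linarith) ((min_le_right _ _).trans (min_le_right _ _)))
    · exact (hg E hE h5').trans (mono Cg δg hCg (by linarith) (min_le_left _ _))
  choose δ C hδ hC h using key
  obtain ⟨d, hd, hd'⟩ := min_pos (Finset.range (n + 1)) δ hδ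
  refine ⟨d, 1 + ∑ m ∈ Finset.range (n + 1), C m, hd, ?_, ?_⟩
  · have : 0 ≤ ∑ m ∈ Finset.range (n + 1), C m := Finset.sum_nonneg fun m _ => (hC m).le
    linarith
  intro E K _ _ _ _ _ hK hEK hgood
  have hfin : FiniteDimensional E K := FiniteDimensional.right ℚ E K
  have h5 : Module.finrank ℚ E ≤ n := by
    rw [← hK, ← Module.finrank_mul_finrank ℚ E K]
    exact Nat.le_mul_of_pos_right _ Module.finrank_pos
  have hmem : Module.finrank ℚ E ∈ Finset.range (n + 1) := Finset.mem_range.2 (by omega)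
  have hD1 := one_le_D' K
  refine (h _ E K rfl hK hEK hgood).trans ?_
  have h6 : |(discr K : ℝ)| ^ (1 / 2 - δ (Module.finrank ℚ E)) ≤ |(discr K : ℝ)| ^ (1 / 2 - d) :=
    Real.rpow_le_rpow_of_exponent_le hD1 (by linarith [hd' _ hmem])
  have h7 : C (Module.finrank ℚ E) ≤ 1 + ∑ m ∈ Finset.range (n + 1), C m := by
    have := Finset.single_le_sum (fun r _ => (hC r).le) hmem
    linarith
  have h8 := hC (Module.finrank ℚ E)
  exact mul_le_mul h7 h6 (by positivity) (by linarith)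

/-- a step of a tower, in terms of the degrees over `ℚ` -/
def Stp {K : Type} [Field K] [NumberField K] (η : ℝ) (A B : IntermediateField ℚ K) : Prop :=
  A ≤ B ∧ (Module.finrank ℚ B = 3 * Module.finrank ℚ A ∨ ∃ d : ℕ, Even d ∧
    Module.finrank ℚ B = d * Module.finrank ℚ A ∧
    ∀ G : IntermediateField ℚ K, A ≤ G → G ≤ B → ∀ e : ℕ, Odd e → 5 ≤ e →
      Module.finrank ℚ B = e * Module.finrank ℚ G → |(discr B : ℝ)| ^ η ≤ |(discr G : ℝ)|)

theorem adm_of_stp {K : Type} [Field K] [NumberField K] {η : ℝ} {A B : IntermediateField ℚ K}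
    (h : Stp η A B) : Adm η A B := by
  have key : ∀ (X Y : IntermediateField ℚ K) (d : ℕ), Module.finrank ℚ Y = d * Module.finrank ℚ X ↔
      Module.finrank X K = d * Module.finrank Y K := by
    intro X Y d
    have h1 : Module.finrank ℚ X * Module.finrank X K = Module.finrank ℚ K := Module.finrank_mul_finrank _ _ _
    have h2 : Module.finrank ℚ Y * Module.finrank Y K = Module.finrank ℚ K := Module.finrank_mul_finrank _ _ _
    have h3 : 0 < Module.finrank ℚ X := Module.finrank_pos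
    have h4 : 0 < Module.finrank Y K := Module.finrank_pos
    constructor
    · intro h5
      apply Nat.eq_of_mul_eq_mul_left h3
      rw [h1, ← h2, h5]
      ring
    · intro h5
      apply Nat.eq_of_mul_eq_mul_right h4
      rw [h2, ← h1, h5]
      ring
  refine ⟨h.1, ?_⟩
  rcases h.2 with h1 | ⟨d, hd, h1, h2⟩
  · exact Or.inl ((key A B 3).1 h1)
  · refine Or.inr ⟨d, hd, ?_, (key A B d).1 h1, ?_⟩
    · have h3 : 0 < Module.finrank ℚ B := Module.finrank_pos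
      rcases Nat.eq_zero_or_pos d with h4 | h4
      · rw [h4, zero_mul] at h1
        omega
      · exact h4
    · intro G hAG hGB e he he5 h3
      exact h2 G hAG hGB e he he5 ((key G B e).2 h3)

/-- the final statement on towers -/
def S_FIN : Prop := ∀ (n : ℕ) (η : ℝ), 0 < η → ∃ δ C : ℝ, 0 < δ ∧ 0 < C ∧
  ∀ (K : Type) [Field K] [NumberField K], Module.finrank ℚ K = n →
    ∀ (j : ℕ) (F : ℕ → IntermediateField ℚ K), (∀ i < j, Stp η (F i) (F (i + 1))) →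
      |(discr K : ℝ)| ^ η ≤ |(discr (F j) : ℝ)| →
      ((∀ x ∈ F j, x ^ 2 ≠ -3) →
        (h3 K : ℝ) ≤ C * |(discr (F 0) : ℝ)| ^ C * |(discr K : ℝ)| ^ (1 / 2 - δ)) ∧
      ((j = 0 ∨ ∀ x ∈ F j, x ^ 2 ≠ -3) → GoodF (F 0) →
        (h3 K : ℝ) ≤ C * |(discr K : ℝ)| ^ (1 / 2 - δ))

theorem noOm_of {K : Type} [Field K] [NumberField K] {A : IntermediateField ℚ K}
    (h : ∀ x ∈ A, x ^ 2 ≠ (-3 : K)) : GE.NoOm A := by
  intro z hz
  have hz' : (z : K) ^ 2 + (z : K) + 1 = 0 := by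
    have := congrArg (fun t : A => (t : K)) hz
    simpa using this
  apply h ((z : K) + (z : K) + 1) (A.add_mem (A.add_mem z.2 z.2) A.one_mem)
  linear_combination 4 * hz'

theorem fin_of (hTOW : S_TOW2) (hUP : ∀ (n : ℕ) (η : ℝ), 0 < η →
    ∃ δ C : ℝ, 0 < δ ∧ 0 < C ∧ ∀ (E K : Type) [Field E] [NumberField E] [Field K] [NumberField K] [Algebra E K],
      Module.finrank ℚ K = n → |(discr K : ℝ)| ^ η ≤ |(discr E : ℝ)| → GoodF E →
      (h3 K : ℝ) ≤ C * |(discr K : ℝ)| ^ (1 / 2 - δ)) : S_FIN := by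
  intro n η hη
  obtain ⟨δ1, C1, hδ1, hC1, h1⟩ := hTOW n η hη
  obtain ⟨τ, hτ⟩ : ∃ τ : ℝ, τ = δ1 / (2 * C1) := ⟨_, rfl⟩
  have hτ0 : 0 < τ := by rw [hτ]; positivity
  have hτC : τ * C1 = δ1 / 2 := by rw [hτ]; field_simp
  obtain ⟨δ2, C2, hδ2, hC2, h2⟩ := hUP n (min τ η) (lt_min hτ0 hη)
  refine ⟨min (δ1 / 2) δ2, C1 + C2, lt_min (by positivity) hδ2, by positivity, ?_⟩
  intro K _ _ hK j F hF hFj
  have hD1 := one_le_D' K
  have hD0 : 0 < |(discr K : ℝ)| := by linarith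
  have hF1 := one_le_D' (F 0)
  have hm1 : min (δ1 / 2) δ2 ≤ δ1 / 2 := min_le_left _ _
  have hm2 : min (δ1 / 2) δ2 ≤ δ2 := min_le_right _ _
  have hA := fun hno : ∀ x ∈ F j, x ^ 2 ≠ (-3 : K) =>
    h1 K hK j F (noOm_of hno) hFj (fun i hi => adm_of_stp (hF i hi))
  have big : |(discr K : ℝ)| ^ (min τ η) ≤ |(discr (F 0) : ℝ)| → GoodF (F 0) →
      (h3 K : ℝ) ≤ (C1 + C2) * |(discr K : ℝ)| ^ (1 / 2 - min (δ1 / 2) δ2) := by
    intro h3 h4
    refine (h2 (F 0) K hK h3 h4).trans ?_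
    have h5 : |(discr K : ℝ)| ^ (1 / 2 - δ2) ≤ |(discr K : ℝ)| ^ (1 / 2 - min (δ1 / 2) δ2) :=
      Real.rpow_le_rpow_of_exponent_le hD1 (by linarith)
    exact mul_le_mul (by linarith) h5 (by positivity) (by positivity)
  refine ⟨fun hno => ?_, fun hno hgood => ?_⟩
  · refine (hA hno).trans ?_
    have h5 : |(discr K : ℝ)| ^ (1 / 2 - δ1) ≤ |(discr K : ℝ)| ^ (1 / 2 - min (δ1 / 2) δ2) :=
      Real.rpow_le_rpow_of_exponent_le hD1 (by linarith)
    have h6 : |(discr (F 0) : ℝ)| ^ C1 ≤ |(discr (F 0) : ℝ)| ^ (C1 + C2) :=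
      Real.rpow_le_rpow_of_exponent_le hF1 (by linarith)
    have h7 : C1 ≤ C1 + C2 := by linarith
    gcongr
  · by_cases h3 : |(discr K : ℝ)| ^ (min τ η) ≤ |(discr (F 0) : ℝ)|
    · exact big h3 hgood
    · rcases hno with h4 | h4
      · rw [h4] at hFj
        refine absurd ?_ h3
        exact (Real.rpow_le_rpow_of_exponent_le hD1 (min_le_right _ _)).trans hFj
      · rw [not_le] at h3
        have h5 : |(discr (F 0) : ℝ)| ^ C1 ≤ |(discr K : ℝ)| ^ (δ1 / 2) := by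
          calc |(discr (F 0) : ℝ)| ^ C1 ≤ (|(discr K : ℝ)| ^ τ) ^ C1 := by
                apply Real.rpow_le_rpow (abs_nonneg _) _ hC1.le
                exact h3.le.trans (Real.rpow_le_rpow_of_exponent_le hD1 (min_le_left _ _))
            _ = _ := by rw [← Real.rpow_mul hD0.le, hτC]
        calc (TW.h3 K : ℝ) ≤ C1 * |(discr (F 0) : ℝ)| ^ C1 * |(discr K : ℝ)| ^ (1 / 2 - δ1) := hA h4
          _ ≤ C1 * |(discr K : ℝ)| ^ (δ1 / 2) * |(discr K : ℝ)| ^ (1 / 2 - δ1) := by gcongr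
          _ = C1 * |(discr K : ℝ)| ^ (1 / 2 - δ1 / 2) := by
              rw [mul_assoc, ← Real.rpow_add hD0]
              congr 2
              ring
          _ ≤ (C1 + C2) * |(discr K : ℝ)| ^ (1 / 2 - min (δ1 / 2) δ2) := by
              have h6 : |(discr K : ℝ)| ^ (1 / 2 - δ1 / 2) ≤ |(discr K : ℝ)| ^ (1 / 2 - min (δ1 / 2) δ2) :=
                Real.rpow_le_rpow_of_exponent_le hD1 (by linarith)
              exact mul_le_mul (by linarith) h6 (by positivity) (by positivity)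

end Pool.Agent.K1H79.TW
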