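import Pool.Agent.K1H79.TW.Closed

/-! # The final statement in one piece (helper79) -/

set_option autoImplicit false

namespace Pool.Agent.K1H79.TW

open NumberField

theorem fin2_of (hF : S_FIN) (hV : SX.S_TRIV) (n : ℕ) (η : ℝ) (hη : 0 < η) :
    ∃ δ τ C : ℝ, 0 < δ ∧ 0 < τ ∧ 0 < C ∧
  ∀ (K : Type) [Field K] [NumberField K], Module.finrank ℚ K = n →
    ∀ (j : ℕ) (F : ℕ → IntermediateField ℚ K), (∀ i < j, Stp η (F i) (F (i + 1))) →
      |(discr K : ℝ)| ^ η ≤ |(discr (F j) : ℝ)| → (j = 0 ∨ ∀ x ∈ F j, x ^ 2 ≠ -3) →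
      (GoodF (F 0) ∨ |(discr (F 0) : ℝ)| ≤ |(discr K : ℝ)| ^ τ) →
        (h3 K : ℝ) ≤ C * |(discr K : ℝ)| ^ (1 / 2 - δ) := by
  obtain ⟨δ, C, hδ, hC, h⟩ := hF n η hη
  obtain ⟨CV, hCV, hV⟩ := hV n
  obtain ⟨τ, hτ⟩ : ∃ τ : ℝ, τ = min (δ / (2 * C)) (η / 2) := ⟨_, rfl⟩
  have hτ0 : 0 < τ := by rw [hτ]; positivity
  have hτ1 : τ * C ≤ δ / 2 := by
    have h1 : τ ≤ δ / (2 * C) := by rw [hτ]; exact min_le_left _ _
    calc τ * C ≤ δ / (2 * C) * C := mul_le_mul_of_nonneg_right h1 hC.le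
      _ = δ / 2 := by field_simp
  have hτ2 : τ ≤ η / 2 := by rw [hτ]; exact min_le_right _ _
  obtain ⟨δ', hδ'⟩ : ∃ δ' : ℝ, δ' = min (δ / 2) (1 / 2) := ⟨_, rfl⟩
  have hδ'0 : 0 < δ' := by rw [hδ']; positivity
  have hδ'1 : δ' ≤ δ / 2 := by rw [hδ']; exact min_le_left _ _
  have hδ'2 : δ' ≤ 1 / 2 := by rw [hδ']; exact min_le_right _ _
  refine ⟨δ', τ, C + CV, hδ'0, hτ0, by positivity, ?_⟩
  intro K _ _ hK j F hF hFj hj h0
  have hD1 := one_le_D' K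
  have hD0 : 0 < |(discr K : ℝ)| := by linarith
  obtain ⟨hA, hB⟩ := h K hK j F hF hFj
  rcases h0 with h0 | h0
  · refine (hB hj h0).trans ?_
    have h5 : |(discr K : ℝ)| ^ (1 / 2 - δ) ≤ |(discr K : ℝ)| ^ (1 / 2 - δ') :=
      Real.rpow_le_rpow_of_exponent_le hD1 (by linarith)
    exact mul_le_mul (by linarith) h5 (by positivity) (by positivity)
  · rcases hj with hj | hj
    · rw [hj] at hFj
      have h3 : |(discr K : ℝ)| ≤ 1 := by
        by_contra h4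
        rw [not_le] at h4
        have h5 : |(discr K : ℝ)| ^ τ < |(discr K : ℝ)| ^ η :=
          Real.rpow_lt_rpow_of_exponent_lt h4 (by linarith)
        linarith
      have h4 : (1 : ℝ) ≤ |(discr K : ℝ)| ^ (1 / 2 - δ') := Real.one_le_rpow hD1 (by linarith)
      calc (TW.h3 K : ℝ) ≤ CV * |(discr K : ℝ)| := hV K hK
        _ ≤ CV * 1 := mul_le_mul_of_nonneg_left h3 hCV.le
        _ ≤ C + CV := by linarith
        _ ≤ _ := le_mul_of_one_le_right (by positivity) h4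
    · have h5 : |(discr (F 0) : ℝ)| ^ C ≤ |(discr K : ℝ)| ^ (δ / 2) := by
        calc |(discr (F 0) : ℝ)| ^ C ≤ (|(discr K : ℝ)| ^ τ) ^ C :=
              Real.rpow_le_rpow (abs_nonneg _) h0 hC.le
          _ = |(discr K : ℝ)| ^ (τ * C) := by rw [← Real.rpow_mul hD0.le]
          _ ≤ _ := Real.rpow_le_rpow_of_exponent_le hD1 hτ1
      calc (h3 K : ℝ) ≤ C * |(discr (F 0) : ℝ)| ^ C * |(discr K : ℝ)| ^ (1 / 2 - δ) := hA hj
        _ ≤ C * |(discr K : ℝ)| ^ (δ / 2) * |(discr K : ℝ)| ^ (1 / 2 - δ) := by gcongr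
        _ = C * |(discr K : ℝ)| ^ (1 / 2 - δ / 2) := by
            rw [mul_assoc, ← Real.rpow_add hD0]
            congr 2
            ring
        _ ≤ (C + CV) * |(discr K : ℝ)| ^ (1 / 2 - δ') := by
            have h6 : |(discr K : ℝ)| ^ (1 / 2 - δ / 2) ≤ |(discr K : ℝ)| ^ (1 / 2 - δ') :=
              Real.rpow_le_rpow_of_exponent_le hD1 (by linarith)
            exact mul_le_mul (by linarith) h6 (by positivity) (by positivity)

end Pool.Agent.K1H79.TW
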