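import Pool.Agent.K1H79.TW.GStm

/-! # The theorem on Galois fields: assembly (helper79) -/

set_option autoImplicit false

namespace Pool.Agent.K1H79.TW

open NumberField

theorem one_le_D2 (L : Type) [Field L] [NumberField L] : 1 ≤ |(discr L : ℝ)| := by
  have := Int.one_le_abs (discr_ne_zero L)
  exact_mod_cast this

theorem discr_one {K : Type} [Field K] [NumberField K] (h : Module.finrank ℚ K = 1) :
    |(discr K : ℝ)| = 1 := by
  have h1 : (⊥ : IntermediateField ℚ K) = ⊤ := IntermediateField.bot_eq_top_iff_finrank_eq_one.2 h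
  have e : K ≃ₐ[ℚ] ℚ :=
    (IntermediateField.topEquiv.symm.trans (IntermediateField.equivOfEq h1.symm)).trans
      (IntermediateField.botEquiv ℚ K)
  rw [discr_eq_discr_of_algEquiv K e, Rat.numberField_discr]
  norm_num

theorem gal_of (hSML : S_SML) (hTOSG : S_TOSG) (hP2 : S_P2) (hP3 : S_P3) (hQUO : S_QUO) (hE3 : S_E3)
    (hTRIV : SX.S_TRIV) : S_GAL := by
  intro n
  induction n using Nat.strong_induction_on with
  | _ n ih =>
  obtain ⟨CV, hCV, hV⟩ := hTRIV n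
  by_cases hn : 2 ≤ n
  swap
  · refine ⟨1 / 2, CV, by norm_num, hCV, ?_⟩
    intro K _ _ _ hK _
    have h1 : 0 < Module.finrank ℚ K := Module.finrank_pos
    have h2 := hV K hK
    rw [discr_one (by omega)] at h2 ⊢
    rw [Real.one_rpow]
    exact h2
  obtain ⟨δ1, η, C1, hδ1, hη, hC1, h1⟩ := hTOSG n hn
  obtain ⟨C0, hC0, h0⟩ := hSML n
  have hC00 : 0 < C0 := by linarith
  obtain ⟨θ, hθ⟩ : ∃ θ : ℝ, θ = η / (2 * C0) := ⟨_, rfl⟩
  have hθ0 : 0 < θ := by rw [hθ]; positivity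
  have hθC : θ * C0 = η / 2 := by rw [hθ]; field_simp
  obtain ⟨δ2, C2, hδ2, hC2, h2⟩ := hP2 n hn θ hθ0
  obtain ⟨δ4, C4, hδ4, hC4, h4⟩ := ih (n / 3) (Nat.div_lt_self (by omega) (by norm_num))
  obtain ⟨δ3, C3, hδ3, hC3, h3⟩ := hP3 (n / 3) δ4 C4 hδ4 hC4
  obtain ⟨D0, hD0⟩ : ∃ D0 : ℝ, D0 = C0 ^ (2 / η) := ⟨_, rfl⟩
  have hD00 : 0 < D0 := by rw [hD0]; positivity
  obtain ⟨δ, hδ⟩ : ∃ δ : ℝ, δ = min (min δ1 δ2) (min δ3 (1 / 2)) := ⟨_, rfl⟩
  have hδ0 : 0 < δ := by rw [hδ]; positivity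
  have hd1 : δ ≤ δ1 := by rw [hδ]; exact (min_le_left _ _).trans (min_le_left _ _)
  have hd2 : δ ≤ δ2 := by rw [hδ]; exact (min_le_left _ _).trans (min_le_right _ _)
  have hd3 : δ ≤ δ3 := by rw [hδ]; exact (min_le_right _ _).trans (min_le_left _ _)
  have hd4 : δ ≤ 1 / 2 := by rw [hδ]; exact (min_le_right _ _).trans (min_le_right _ _)
  refine ⟨δ, C1 + C2 + C3 + CV * D0, hδ0, by positivity, ?_⟩
  intro K _ _ _ hK hgood
  have hD1 := one_le_D2 K
  have hDp : 0 < |(discr K : ℝ)| := by linarith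
  have mono : ∀ (C' δ' : ℝ), 0 < C' → C' ≤ C1 + C2 + C3 + CV * D0 → δ ≤ δ' →
      C' * |(discr K : ℝ)| ^ (1 / 2 - δ') ≤ (C1 + C2 + C3 + CV * D0) * |(discr K : ℝ)| ^ (1 / 2 - δ) := by
    intro C' δ' h5 h6 h7
    have h8 : |(discr K : ℝ)| ^ (1 / 2 - δ') ≤ |(discr K : ℝ)| ^ (1 / 2 - δ) :=
      Real.rpow_le_rpow_of_exponent_le hD1 (by linarith)
    exact mul_le_mul h6 h8 (by positivity) (by linarith)
  have hp5 : 0 < CV * D0 := by positivity
  by_cases hz3 : ∃ z ∈ Subgroup.center Gal(K/ℚ), orderOf z = 3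
  · obtain ⟨z, hz, hz3⟩ := hz3
    obtain ⟨E, hE1, hE2, hE3', hE4⟩ := hE3 hQUO K z hz hz3 hgood
    have hEn : Module.finrank ℚ E = n / 3 := by
      have := Module.finrank_mul_finrank ℚ E K
      rw [hE3', hK] at this
      omega
    exact (h3 E K hEn hE3' (h4 E hEn hE4)).trans (mono C3 δ3 hC3 (by linarith) hd3)
  by_cases hD : |(discr K : ℝ)| ≤ D0
  · have h5 : (1 : ℝ) ≤ |(discr K : ℝ)| ^ (1 / 2 - δ) := Real.one_le_rpow hD1 (by linarith)
    calc (TW.h3 K : ℝ) ≤ CV * |(discr K : ℝ)| := hV K hK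
      _ ≤ CV * D0 := by gcongr
      _ ≤ C1 + C2 + C3 + CV * D0 := by linarith
      _ ≤ _ := le_mul_of_one_le_right (by positivity) h5
  rw [not_le] at hD
  have hDθ : 1 ≤ |(discr K : ℝ)| ^ θ := Real.one_le_rpow hD1 hθ0.le
  obtain ⟨S, hS1, hS2⟩ := h0 K hK (|(discr K : ℝ)| ^ θ) hDθ
  have hS3 : |(discr S : ℝ)| ≤ |(discr K : ℝ)| ^ η := by
    have h6 : C0 ≤ |(discr K : ℝ)| ^ (η / 2) := by
      calc C0 = D0 ^ (η / 2) := by
            rw [hD0, ← Real.rpow_mul hC00.le]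
            have : 2 / η * (η / 2) = 1 := by field_simp
            rw [this, Real.rpow_one]
        _ ≤ _ := Real.rpow_le_rpow hD00.le hD.le (by positivity)
    calc |(discr S : ℝ)| ≤ C0 * (|(discr K : ℝ)| ^ θ) ^ C0 := hS1
      _ = C0 * |(discr K : ℝ)| ^ (η / 2) := by rw [← Real.rpow_mul hDp.le, hθC]
      _ ≤ |(discr K : ℝ)| ^ (η / 2) * |(discr K : ℝ)| ^ (η / 2) := by gcongr
      _ = |(discr K : ℝ)| ^ η := by rw [← Real.rpow_add hDp, add_halves]
  rcases h1 K S hK hS3 with h5 | ⟨z, hz, hzS, hp, hy⟩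
  · exact h5.trans (mono C1 δ1 hC1 (by linarith) hd1)
  have hz2 : orderOf z = 2 := by
    have h5 : orderOf z ≠ 3 := fun h => hz3 ⟨z, hz, h⟩
    have h6 : ¬ 5 ≤ orderOf z := by
      intro h
      obtain ⟨x, hx, hx'⟩ := hgood z hz hp h
      exact hx' (hy x hx)
    have h7 : orderOf z ≠ 4 := by
      intro h
      rw [h] at hp
      exact absurd hp (by norm_num)
    have := hp.two_le
    omega
  refine (h2 K hK S ?_ hS2).trans (mono C2 δ2 hC2 (by linarith) hd2)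
  have h5 : Subgroup.zpowers z ≤ S.fixingSubgroup := by
    rw [Subgroup.zpowers_le]
    exact hzS
  have h6 : S ≤ IntermediateField.fixedField (Subgroup.zpowers z) := by
    rw [IntermediateField.le_iff_le]
    exact h5
  have h7 : Module.finrank (IntermediateField.fixedField (Subgroup.zpowers z)) K = 2 := by
    rw [IntermediateField.finrank_fixedField_eq_card, Nat.card_zpowers, hz2]
  have h8 := IntermediateField.finrank_dvd_of_le_left h6
  rw [h7] at h8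
  exact even_iff_two_dvd.2 h8

end Pool.Agent.K1H79.TW
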