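import Pool.Agent.K1H79.TW.GStm
import Pool.Agent.K1H79.SX.Cmp
import Pool.Agent.K1H79.TOS.All2

/-! # SML and TOSG (helper79) -/

set_option autoImplicit false

namespace Pool.Agent.K1H79.TW

open NumberField NumberField.InfinitePlace

theorem sml_of (hSUB : GE.S_SUB) : S_SML := by
  intro n
  obtain ⟨C0, hC0, h0⟩ := hSUB n
  have hP : (1 : ℝ) ≤ 2 ^ n + 2 := by
    have : (0 : ℝ) ≤ 2 ^ n := by positivity
    linarith
  refine ⟨max 1 (max C0 (C0 * (2 ^ n + 2) ^ C0)), le_max_left _ _, ?_⟩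
  intro K _ _ hK X hX
  have hs1 : 1 ≤ √X := Real.one_le_sqrt.2 hX
  obtain ⟨H, hH⟩ : ∃ H : ℝ, H = (2 ^ n + 2) * √X := ⟨_, rfl⟩
  have hH1 : 1 ≤ H := by rw [hH]; exact one_le_mul_of_one_le_of_one_le hP hs1
  refine ⟨GE.Hs K H, ?_, ?_⟩
  · refine (h0 K hK H hH1).trans ?_
    obtain ⟨C1, hC1⟩ : ∃ C1 : ℝ, C1 = max 1 (max C0 (C0 * (2 ^ n + 2) ^ C0)) := ⟨_, rfl⟩
    have hC2 : C0 ≤ C1 := by rw [hC1]; exact (le_max_left _ _).trans (le_max_right _ _)
    have hC3 : C0 * (2 ^ n + 2) ^ C0 ≤ C1 := by rw [hC1]; exact (le_max_right _ _).trans (le_max_right _ _)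
    rw [← hC1, hH, Real.mul_rpow (by linarith) (Real.sqrt_nonneg _), ← mul_assoc]
    apply mul_le_mul hC3 _ (by positivity) (by linarith [hC0])
    calc √X ^ C0 ≤ X ^ C0 := by
          apply Real.rpow_le_rpow (Real.sqrt_nonneg _) _ hC0.le
          rw [Real.sqrt_le_left (by linarith)]
          nlinarith
      _ ≤ X ^ C1 := Real.rpow_le_rpow_of_exponent_le hX hC2
  · intro F hF x hx
    obtain ⟨a, ha, ha'⟩ := SX.prim_small F
    have hFm : Module.finrank ℚ F ≤ n := by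
      rw [← hK, ← Module.finrank_mul_finrank ℚ F K]
      exact Nat.le_mul_of_pos_right _ Module.finrank_pos
    have haH : ∀ w : InfinitePlace F, w (a : F) ≤ H := by
      intro w
      refine (ha' w).trans ?_
      rw [hH]
      apply mul_le_mul _ _ (Real.sqrt_nonneg _) (by linarith)
      · have : (2 : ℝ) ^ Module.finrank ℚ F ≤ 2 ^ n := pow_le_pow_right₀ (by norm_num) hFm
        linarith
      · exact Real.sqrt_le_sqrt hF
    exact SX.mem_Hs (K := K) ha haH (⟨x, hx⟩ : F)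

theorem inc_self (K : Type) [Field K] [NumberField K] [IsGalois ℚ K] : IsNormalClosure ℚ K K := by
  rw [Algebra.IsAlgebraic.isNormalClosure_iff]
  refine ⟨fun x => (inferInstance : Normal ℚ K).splits x, ?_⟩
  refine le_antisymm le_top ?_
  refine le_trans ?_ (le_iSup _ (AlgHom.id ℚ K))
  intro x _
  exact ⟨x, rfl⟩

theorem tosg (hBAD : S_BAD) : S_TOSG := by
  intro n hn
  obtain ⟨δ, η, C, hδ, hη, hC, h1, -⟩ := TOS.all2 n 3 hn (by norm_num)
  refine ⟨δ, η, C, hδ, hη, hC, ?_⟩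
  intro K _ _ _ k hK hk
  by_cases hcond : ∀ M : Subgroup Gal(K/ℚ), M.Normal → M ≠ ⊥ → M ≤ k.fixingSubgroup →
      ∃ g : Gal(K/ℚ), ∀ x ∈ M, ∃ φ : K →ₐ[ℚ] K, ∃ y ∈ M, ∀ k : ℤ, ∃ v : K, y (φ v) ≠ ((g * x) ^ k) (φ v)
  · left
    have := inc_self K
    exact h1 K K k hK hk hcond
  · right
    push Not at hcond
    obtain ⟨M, hM, hM0, hMk, hbad⟩ := hcond
    obtain ⟨z, hz, hzM, hp, hy⟩ := hBAD Gal(K/ℚ) M hM hM0 (by
      intro g
      obtain ⟨x, hx, h2⟩ := hbad g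
      refine ⟨x, hx, fun y hy => ?_⟩
      obtain ⟨j, hj⟩ := h2 (AlgHom.id ℚ K) y hy
      rw [Subgroup.mem_zpowers_iff]
      refine ⟨j, ?_⟩
      ext v
      exact (hj v).symm)
    exact ⟨z, hz, hMk hzM, hp, hy⟩

end Pool.Agent.K1H79.TW
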