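import Pool.Agent.K1H79.TW.All
import Pool.Agent.K1H79.TW.Sml
import Pool.Agent.K1H79.TW.GalF
import Pool.Agent.K1H79.TW.Fin
import Pool.Agent.K1H36.TW.Bad
import Pool.Agent.K1H26.TW.Quo
import Pool.Agent.K1H97.TW.E3
import Pool.Agent.K1H24.TW.Cyc
import Pool.Agent.K1H92.TW.P2
import Pool.Agent.K1H33.TW.P3

/-! # Galois fields: closed theorem (helper79) -/

set_option autoImplicit false

namespace Pool.Agent.K1H79.TW

open NumberField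

theorem cyc : S_CYC :=
  Pool.Agent.K1H24.TW.t_CYCof
    (Pool.Agent.K1H40.SX.t_C3 Pool.Agent.K1H21.SX.t_INV _root_.K1H26.SX.t_AMB Pool.Agent.K1H52.SX.t_RAM)
    Pool.Agent.K1H52.SX.t_RAM SX.t_TRIV

theorem gal_of' (hCC : S_CC) (hOM : S_OM) : S_GAL :=
  gal_of (sml_of Pool.Agent.K1H39.GE.t_SUB) (tosg Pool.Agent.K1H36.TW.t_BAD)
    (Pool.Agent.K1H92.TW.t_P2of GE.ge transfer SX.t_TRIV RF.t_DISC hCC hOM)
    (Pool.Agent.K1H33.TW.t_P3of transfer cyc) t_QUO Pool.Agent.K1H97.TW.t_E3 SX.t_TRIV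

theorem fin_of' (hCC : S_CC) (hOM : S_OM) : S_FIN := by
  refine fin_of tow2 (good_up transfer (gal_of' hCC hOM) ?_ SX.sextic)
  obtain ⟨δ, C, hδ, -, hC, h⟩ := Q4.quart
  exact ⟨δ, C, hδ, hC, h⟩

end Pool.Agent.K1H79.TW
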