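import Mathlib

/-! # Chains of subgroups of `{2,3}`-groups (statement; Mathlib only; owner helper79) -/

set_option autoImplicit false

namespace Pool.Agent.K1H79.TW

/-- in a finite solvable group of order `2^a 3^b` every subgroup of order at most `2` is connected with the
whole group by a chain of subgroups with indices `2` and `3` -/
def S_GRP : Prop := ∀ (G : Type) [Group G] [Finite G] [Group.IsSolvable G] (a b : ℕ), Nat.card G = 2 ^ a * 3 ^ b →
  ∀ H : Subgroup G, Nat.card H ≤ 2 → ∃ (j : ℕ) (S : ℕ → Subgroup G), S 0 = ⊤ ∧ S j = H ∧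
    ∀ i < j, S (i + 1) ≤ S i ∧ (Nat.card (S i) = 2 * Nat.card (S (i + 1)) ∨
      Nat.card (S i) = 3 * Nat.card (S (i + 1)))

end Pool.Agent.K1H79.TW
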