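import Pool.Agent.K1H79.SX.Gen

/-! # One step of a tower, with polynomial dependence on the base field (helper79) -/

set_option autoImplicit false

namespace Pool.Agent.K1H79.TW

open NumberField Pool.Agent.K1H79.SX

/-- even steps: fields of even degree over `k` without `√-3`, polynomially in the discriminant of `k` -/
def S_EVU : Prop := ∀ (r n : ℕ), 0 < r → Even n → 0 < n → ∀ η : ℝ, 0 < η →
  ∃ δ C : ℝ, 0 < δ ∧ 0 < C ∧ ∀ (k K : Type) [Field k] [NumberField k] [Field K] [NumberField K] [Algebra k K],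
    Module.finrank ℚ k = r → Module.finrank k K = n → GE.NoOm K →
    (∀ F : IntermediateField ℚ K, (∀ x : k, algebraMap k K x ∈ F) → Odd (Module.finrank F K) →
      5 ≤ Module.finrank F K → |(discr K : ℝ)| ^ η ≤ |(discr F : ℝ)|) →
    (SX.h3 K : ℝ) ≤ C * |(discr k : ℝ)| ^ C * |(discr K : ℝ)| ^ (1 / 2 - δ : ℝ)

/-- cubic steps -/
def S_CUU : Prop := ∀ (r : ℕ), 0 < r →
  ∃ δ C : ℝ, 0 < δ ∧ 0 < C ∧ ∀ (k K : Type) [Field k] [NumberField k] [Field K] [NumberField K] [Algebra k K],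
    Module.finrank ℚ k = r → Module.finrank k K = 3 → GE.NoOm K →
    (SX.h3 K : ℝ) ≤ C * |(discr k : ℝ)| ^ C * |(discr K : ℝ)| ^ (1 / 2 - δ : ℝ)

/-- numerical lemma -/
theorem num_cub {D d C C' δ : ℝ} (hD : 1 ≤ D) (hd1 : 1 ≤ d) (hC : 0 < C) (hC' : 0 < C')
    (hδ : 0 < δ) (hδ2 : δ ≤ 1 / 2) :
    C * D ^ (δ / 4) * d ^ C ≤ C * d ^ (2 * C + C') * D ^ (1 / 2 - δ / 2) ∧ ∀ E : ℝ, 1 ≤ E → E ≤ C * d ^ C * D →
    C * D ^ (δ / 4) * d ^ C * (E ^ (1 / 2 - δ) + d ^ C') ≤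
      C * (C ^ (1 / 2 - δ) + 1) * d ^ (2 * C + C') * D ^ (1 / 2 - δ / 2) := by
  have hD0 : 0 < D := by linarith
  have hd0 : 0 < d := by linarith
  have h1 : d ^ C ≤ d ^ (2 * C + C') := Real.rpow_le_rpow_of_exponent_le hd1 (by linarith)
  have h2 : D ^ (δ / 4) ≤ D ^ (1 / 2 - δ / 2) := Real.rpow_le_rpow_of_exponent_le hD (by linarith)
  constructor
  · calc C * D ^ (δ / 4) * d ^ C ≤ C * D ^ (1 / 2 - δ / 2) * d ^ (2 * C + C') := by gcongr
      _ = _ := by ring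
  · intro E hE1 hE
    have h3 : E ^ (1 / 2 - δ) ≤ C ^ (1 / 2 - δ) * d ^ C * D ^ (1 / 2 - δ) := by
      calc E ^ (1 / 2 - δ) ≤ (C * d ^ C * D) ^ (1 / 2 - δ) := Real.rpow_le_rpow (by linarith) hE (by linarith)
        _ = C ^ (1 / 2 - δ) * (d ^ C) ^ (1 / 2 - δ) * D ^ (1 / 2 - δ) := by
            rw [Real.mul_rpow (by positivity) hD0.le, Real.mul_rpow hC.le (by positivity)]
        _ ≤ C ^ (1 / 2 - δ) * d ^ C * D ^ (1 / 2 - δ) := by
            have h4 : (d ^ C) ^ (1 / 2 - δ) ≤ d ^ C := by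
              have h5 : 1 ≤ d ^ C := Real.one_le_rpow hd1 hC.le
              calc (d ^ C) ^ (1 / 2 - δ) ≤ (d ^ C) ^ (1 : ℝ) :=
                    Real.rpow_le_rpow_of_exponent_le h5 (by linarith)
                _ = d ^ C := Real.rpow_one _
            gcongr
    have h5 : D ^ (δ / 4) * D ^ (1 / 2 - δ) ≤ D ^ (1 / 2 - δ / 2) := by
      rw [← Real.rpow_add hD0]
      exact Real.rpow_le_rpow_of_exponent_le hD (by linarith)
    have h6 : d ^ C * d ^ C ≤ d ^ (2 * C + C') := by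
      rw [← Real.rpow_add hd0]
      exact Real.rpow_le_rpow_of_exponent_le hd1 (by linarith)
    have h7 : d ^ C * d ^ C' ≤ d ^ (2 * C + C') := by
      rw [← Real.rpow_add hd0]
      exact Real.rpow_le_rpow_of_exponent_le hd1 (by linarith)
    have hp1 : 0 < C ^ (1 / 2 - δ) := by positivity
    calc C * D ^ (δ / 4) * d ^ C * (E ^ (1 / 2 - δ) + d ^ C')
        ≤ C * D ^ (δ / 4) * d ^ C * (C ^ (1 / 2 - δ) * d ^ C * D ^ (1 / 2 - δ) + d ^ C') := by gcongr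
      _ = C * (C ^ (1 / 2 - δ) * (d ^ C * d ^ C) * (D ^ (δ / 4) * D ^ (1 / 2 - δ)) +
            (d ^ C * d ^ C') * D ^ (δ / 4)) := by ring
      _ ≤ C * (C ^ (1 / 2 - δ) * d ^ (2 * C + C') * D ^ (1 / 2 - δ / 2) +
            d ^ (2 * C + C') * D ^ (1 / 2 - δ / 2)) := by gcongr
      _ = _ := by ring

theorem cuu_of (hGE : GE.S_GE) (hSUB : GE.S_SUB) (hG : S_GER) : S_CUU := by
  intro r hr
  obtain ⟨δ, CQ, hδ, hδ2, hCQ, hQ⟩ := quad_gen hGE hSUB r hr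
  obtain ⟨C3, hC3, h3'⟩ := hG r (δ / 4) (by positivity)
  obtain ⟨C, hC⟩ : ∃ C : ℝ, C = (2 * C3 + CQ) + C3 + C3 * (C3 ^ (1 / 2 - δ) + 1) * CQ := ⟨_, rfl⟩
  have hT3 : 0 < C3 * (C3 ^ (1 / 2 - δ) + 1) * CQ := by positivity
  have hCpos : 0 < C := by rw [hC]; positivity
  refine ⟨δ / 2, C, by positivity, hCpos, ?_⟩
  intro k K _ _ _ _ _ hk hK hno
  have hD1 := one_le_D K
  have hd1 := one_le_D k
  have hexp : |(discr k : ℝ)| ^ (2 * C3 + CQ) ≤ |(discr k : ℝ)| ^ C :=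
    Real.rpow_le_rpow_of_exponent_le hd1 (by rw [hC]; linarith)
  have hp0 : 0 ≤ |(discr K : ℝ)| ^ (1 / 2 - δ / 2 : ℝ) := by positivity
  have hp1 : 0 ≤ |(discr k : ℝ)| ^ C := by positivity
  obtain h8 | ⟨F', _, _, _, h8, h9, h10⟩ := h3' k K hk hK
  · have h11 := (num_cub hD1 hd1 hC3 hCQ hδ hδ2).1
    refine h8.trans (h11.trans ?_)
    have h12 : C3 ≤ C := by rw [hC]; linarith
    gcongr
  · have h11 := (num_cub hD1 hd1 hC3 hCQ hδ hδ2).2 _ (one_le_D F') h9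
    have h12 := hQ k F' hk h8 (noOm_sub hno)
    calc (h3 K : ℝ) ≤ C3 * |(discr K : ℝ)| ^ (δ / 4) * |(discr k : ℝ)| ^ C3 * h3 F' := h10
      _ ≤ C3 * |(discr K : ℝ)| ^ (δ / 4) * |(discr k : ℝ)| ^ C3 *
          (CQ * (|(discr F' : ℝ)| ^ (1 / 2 - δ : ℝ) + |(discr k : ℝ)| ^ CQ)) := by gcongr
      _ = C3 * |(discr K : ℝ)| ^ (δ / 4) * |(discr k : ℝ)| ^ C3 *
          (|(discr F' : ℝ)| ^ (1 / 2 - δ : ℝ) + |(discr k : ℝ)| ^ CQ) * CQ := by ring
      _ ≤ C3 * (C3 ^ (1 / 2 - δ) + 1) * |(discr k : ℝ)| ^ (2 * C3 + CQ) * |(discr K : ℝ)| ^ (1 / 2 - δ / 2) * CQ := by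
          gcongr
      _ = (C3 * (C3 ^ (1 / 2 - δ) + 1) * CQ) * |(discr k : ℝ)| ^ (2 * C3 + CQ) *
            |(discr K : ℝ)| ^ (1 / 2 - δ / 2) := by ring
      _ ≤ C * |(discr k : ℝ)| ^ C * |(discr K : ℝ)| ^ (1 / 2 - δ / 2 : ℝ) := by
          have h12 : C3 * (C3 ^ (1 / 2 - δ) + 1) * CQ ≤ C := by
            rw [hC]
            linarith
          gcongr

/-- if `D` is at most `(c d ^ c) ^ e` then the trivial bound is sufficient -/
theorem triv_case {D d C2 c e h : ℝ} (hD : 1 ≤ D) (hd : 1 ≤ d) (hC2 : 0 < C2) (hc : 1 ≤ c) (_he : 0 < e)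
    (h1 : h ≤ C2 * D) (h2 : D ≤ (c * d ^ c) ^ e) (C δ : ℝ) (hC : C2 * c ^ e ≤ C) (hC' : c * e ≤ C)
    (hδ : δ ≤ 1 / 2) : h ≤ C * d ^ C * D ^ (1 / 2 - δ) := by
  have hd0 : 0 < d := by linarith
  have hc0 : 0 < c := by linarith
  have h3 : (c * d ^ c) ^ e = c ^ e * d ^ (c * e) := by
    rw [Real.mul_rpow hc0.le (by positivity), ← Real.rpow_mul hd0.le]
  have h4 : d ^ (c * e) ≤ d ^ C := Real.rpow_le_rpow_of_exponent_le hd hC'
  have h5 : (1 : ℝ) ≤ D ^ (1 / 2 - δ) := Real.one_le_rpow hD (by linarith)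
  have hCp : 0 < C := lt_of_lt_of_le (by positivity) hC
  calc h ≤ C2 * D := h1
    _ ≤ C2 * (c ^ e * d ^ (c * e)) := by rw [← h3]; exact mul_le_mul_of_nonneg_left h2 hC2.le
    _ = C2 * c ^ e * d ^ (c * e) := by ring
    _ ≤ C * d ^ C := by gcongr
    _ ≤ C * d ^ C * D ^ (1 / 2 - δ) := le_mul_of_one_le_right (by positivity) h5

theorem evu_of (hGE : GE.S_GE) (hSUB : GE.S_SUB) (hG : S_GER) : S_EVU := by
  intro r n hr hn hn0 η hη
  obtain ⟨m, hm⟩ : ∃ m : ℕ, m = r * n := ⟨_, rfl⟩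
  have hmev : Even m := by rw [hm]; exact hn.mul_left _
  have hm0 : 0 < m := by rw [hm]; exact Nat.mul_pos hr hn0
  have hm2 : 2 ≤ m := by
    obtain ⟨r, hr⟩ := hmev
    omega
  obtain ⟨C0, hC0, h0⟩ := comp_small hSUB m
  have hC00 : 0 < C0 := by linarith
  obtain ⟨C2, hC2, h2⟩ := t_TRIV m
  obtain ⟨m1, hm1⟩ : ∃ m1 : ℕ, m1 = max 1 (m / 3) := ⟨_, rfl⟩
  obtain ⟨δ1, C1, hδ1, hC1, h1⟩ := cuu_of hGE hSUB hG m1 (by rw [hm1]; exact lt_of_lt_of_le one_pos (le_max_left _ _))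
  obtain ⟨δ', hδ'⟩ : ∃ δ' : ℝ, δ' = min δ1 (1 / 2) := ⟨_, rfl⟩
  have hδ'0 : 0 < δ' := by rw [hδ']; positivity
  have hδ'1 : δ' ≤ δ1 := by rw [hδ']; exact min_le_left _ _
  have hδ'2 : δ' ≤ 1 / 2 := by rw [hδ']; exact min_le_right _ _
  obtain ⟨η', hη'⟩ : ∃ η' : ℝ, η' = min (1 / (2 * C0)) (min (η / (2 * C0)) (δ' / (2 * C0 * C1))) := ⟨_, rfl⟩
  have hη'0 : 0 < η' := by rw [hη']; positivity
  have hη1 : η' * C0 ≤ 1 / 2 := by
    have h3 : η' ≤ 1 / (2 * C0) := by rw [hη']; exact min_le_left _ _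
    calc η' * C0 ≤ 1 / (2 * C0) * C0 := mul_le_mul_of_nonneg_right h3 hC00.le
      _ = 1 / 2 := by field_simp
  have hη2 : η' * C0 ≤ η / 2 := by
    have h3 : η' ≤ η / (2 * C0) := by rw [hη']; exact (min_le_right _ _).trans (min_le_left _ _)
    calc η' * C0 ≤ η / (2 * C0) * C0 := mul_le_mul_of_nonneg_right h3 hC00.le
      _ = η / 2 := by field_simp
  have hη3 : η' * C0 * C1 ≤ δ' / 2 := by
    have h3 : η' ≤ δ' / (2 * C0 * C1) := by rw [hη']; exact (min_le_right _ _).trans (min_le_right _ _)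
    calc η' * C0 * C1 ≤ δ' / (2 * C0 * C1) * C0 * C1 := by gcongr
      _ = δ' / 2 := by field_simp
  obtain ⟨δ4, C4, hδ4, hC4, h4⟩ := hGE m hmev hm2 η' hη'0
  obtain ⟨δ, hδ⟩ : ∃ δ : ℝ, δ = min (min δ4 (1 / 2)) (δ' / 2) := ⟨_, rfl⟩
  have hδ0 : 0 < δ := by rw [hδ]; positivity
  have hδ4' : δ ≤ δ4 := by rw [hδ]; exact (min_le_left _ _).trans (min_le_left _ _)
  have hδh : δ ≤ 1 / 2 := by rw [hδ]; exact (min_le_left _ _).trans (min_le_right _ _)
  have hδ1' : δ ≤ δ' / 2 := by rw [hδ]; exact min_le_right _ _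
  have hc1 : 0 < C2 * C0 ^ (2 : ℝ) := by positivity
  have hc2 : 0 < C2 * C0 ^ (2 / η : ℝ) := by positivity
  have hc3 : 0 < C0 * (2 / η) := by positivity
  have hc4 : 0 < C1 * C0 ^ C1 := by positivity
  obtain ⟨C, hC⟩ : ∃ C : ℝ, C = C4 + C2 * C0 ^ (2 : ℝ) + C2 * C0 ^ (2 / η : ℝ) + C0 * (2 / η) + C0 * 2 +
    C1 * C0 ^ C1 + C0 * C1 := ⟨_, rfl⟩
  have hc5 : 0 < C0 * C1 := by positivity
  have hCpos : 0 < C := by rw [hC]; positivity
  refine ⟨δ, C, hδ0, hCpos, ?_⟩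
  intro k K _ _ _ _ _ hk hK hno hsub
  have hfin : FiniteDimensional k K := FiniteDimensional.right ℚ k K
  have hKm : Module.finrank ℚ K = m := by
    rw [hm, ← hK, ← hk, Module.finrank_mul_finrank]
  have hD1 := one_le_D K
  have hD0 : 0 < |(discr K : ℝ)| := by linarith
  have hd1 := one_le_D k
  have hd0 : 0 < |(discr k : ℝ)| := by linarith
  by_cases hall : ∀ F : IntermediateField ℚ K, Odd (Module.finrank F K) →
      |(discr K : ℝ)| ^ η' ≤ |(discr F : ℝ)|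
  · have h5 := h4 K hKm hno hall
    have h6 : (1 : ℝ) ≤ |(discr k : ℝ)| ^ C := Real.one_le_rpow hd1 hCpos.le
    calc (h3 K : ℝ) ≤ C4 * |(discr K : ℝ)| ^ (1 / 2 - δ4 : ℝ) := h5
      _ ≤ C * |(discr K : ℝ)| ^ (1 / 2 - δ : ℝ) := by
          have h7 : C4 ≤ C := by rw [hC]; linarith
          have h8 : |(discr K : ℝ)| ^ (1 / 2 - δ4 : ℝ) ≤ |(discr K : ℝ)| ^ (1 / 2 - δ : ℝ) :=
            Real.rpow_le_rpow_of_exponent_le hD1 (by linarith)
          gcongr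
      _ ≤ C * |(discr K : ℝ)| ^ (1 / 2 - δ : ℝ) * |(discr k : ℝ)| ^ C :=
          le_mul_of_one_le_right (by positivity) h6
      _ = _ := by ring
  · push Not at hall
    obtain ⟨F, hF1, hF2⟩ := hall
    obtain ⟨E, hE1, hE2, hE3⟩ := h0 k K hKm F
    have hdF := one_le_D F
    have hdE := one_le_D E
    -- `D_E ≤ (C0 d^C0) D^(η' C0)`
    have hEs : |(discr E : ℝ)| ≤ (C0 * |(discr k : ℝ)| ^ C0) * |(discr K : ℝ)| ^ (η' * C0) := by
      calc |(discr E : ℝ)| ≤ C0 * (|(discr F : ℝ)| * |(discr k : ℝ)|) ^ C0 := hE3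
        _ = (C0 * |(discr k : ℝ)| ^ C0) * |(discr F : ℝ)| ^ C0 := by
            rw [Real.mul_rpow (abs_nonneg _) (abs_nonneg _)]
            ring
        _ ≤ (C0 * |(discr k : ℝ)| ^ C0) * (|(discr K : ℝ)| ^ η') ^ C0 := by
            apply mul_le_mul_of_nonneg_left _ (by positivity)
            exact Real.rpow_le_rpow (abs_nonneg _) hF2.le hC00.le
        _ = _ := by rw [← Real.rpow_mul hD0.le]
    have hA0 : 0 < C0 * |(discr k : ℝ)| ^ C0 := by positivity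
    have h6 : Module.finrank E K ∣ Module.finrank F K := IntermediateField.finrank_dvd_of_le_left hE1
    have hodd : Odd (Module.finrank E K) := Odd.of_dvd_nat hF1 h6
    obtain hj | hj | hj : Module.finrank E K = 1 ∨ Module.finrank E K = 3 ∨ 5 ≤ Module.finrank E K := by
      obtain ⟨r, hr⟩ := hodd
      omega
    · have h8 : E = ⊤ := by
        rw [← IntermediateField.finrank_eq_one_iff_eq_top]
        exact hj
      rw [h8, GE.discr_top] at hEs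
      have h9 : |(discr K : ℝ)| ≤ (C0 * |(discr k : ℝ)| ^ C0) ^ (2 : ℝ) := by
        have h10 : |(discr K : ℝ)| ≤ (C0 * |(discr k : ℝ)| ^ C0) * |(discr K : ℝ)| ^ (1 / 2 : ℝ) := by
          refine hEs.trans ?_
          apply mul_le_mul_of_nonneg_left _ hA0.le
          exact Real.rpow_le_rpow_of_exponent_le hD1 hη1
        have h11 : |(discr K : ℝ)| = |(discr K : ℝ)| ^ (1 / 2 : ℝ) * |(discr K : ℝ)| ^ (1 / 2 : ℝ) := by
          rw [← Real.rpow_add hD0]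
          norm_num
        have h12 : |(discr K : ℝ)| ^ (1 / 2 : ℝ) ≤ C0 * |(discr k : ℝ)| ^ C0 := by
          have h13 : 0 < |(discr K : ℝ)| ^ (1 / 2 : ℝ) := by positivity
          exact le_of_mul_le_mul_right (h11.symm.le.trans h10) h13
        calc |(discr K : ℝ)| = (|(discr K : ℝ)| ^ (1 / 2 : ℝ)) ^ (2 : ℝ) := by
              rw [← Real.rpow_mul hD0.le]
              norm_num
          _ ≤ _ := Real.rpow_le_rpow (by positivity) h12 (by norm_num)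
      exact triv_case hD1 hd1 hC2 hC0 two_pos (h2 K hKm) h9 C δ (by rw [hC]; linarith) (by rw [hC]; linarith) hδh
    · have hEm : Module.finrank ℚ E = m1 := by
        have h7 : Module.finrank ℚ E * Module.finrank E K = m := by
          rw [Module.finrank_mul_finrank, hKm]
        have h8 : 0 < Module.finrank ℚ E := Module.finrank_pos
        rw [hj] at h7
        rw [hm1]
        omega
      have h8 := h1 E K hEm hj hno
      have h9 : |(discr E : ℝ)| ^ C1 ≤ C0 ^ C1 * |(discr k : ℝ)| ^ (C0 * C1) * |(discr K : ℝ)| ^ (δ' / 2) := by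
        calc |(discr E : ℝ)| ^ C1 ≤ ((C0 * |(discr k : ℝ)| ^ C0) * |(discr K : ℝ)| ^ (η' * C0)) ^ C1 :=
              Real.rpow_le_rpow (abs_nonneg _) hEs hC1.le
          _ = C0 ^ C1 * |(discr k : ℝ)| ^ (C0 * C1) * |(discr K : ℝ)| ^ (η' * C0 * C1) := by
              rw [Real.mul_rpow hA0.le (by positivity), Real.mul_rpow hC00.le (by positivity),
                ← Real.rpow_mul hD0.le, ← Real.rpow_mul hd0.le]
          _ ≤ _ := by
              apply mul_le_mul_of_nonneg_left _ (by positivity)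
              exact Real.rpow_le_rpow_of_exponent_le hD1 hη3
      have h10 : |(discr K : ℝ)| ^ (δ' / 2) * |(discr K : ℝ)| ^ (1 / 2 - δ1) ≤ |(discr K : ℝ)| ^ (1 / 2 - δ) := by
        rw [← Real.rpow_add hD0]
        exact Real.rpow_le_rpow_of_exponent_le hD1 (by linarith)
      have h11 : |(discr k : ℝ)| ^ (C0 * C1) ≤ |(discr k : ℝ)| ^ C :=
        Real.rpow_le_rpow_of_exponent_le hd1 (by rw [hC]; linarith)
      calc (h3 K : ℝ) ≤ C1 * |(discr E : ℝ)| ^ C1 * |(discr K : ℝ)| ^ (1 / 2 - δ1 : ℝ) := h8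
        _ ≤ C1 * (C0 ^ C1 * |(discr k : ℝ)| ^ (C0 * C1) * |(discr K : ℝ)| ^ (δ' / 2)) *
              |(discr K : ℝ)| ^ (1 / 2 - δ1 : ℝ) := by gcongr
        _ = (C1 * C0 ^ C1) * |(discr k : ℝ)| ^ (C0 * C1) *
              (|(discr K : ℝ)| ^ (δ' / 2) * |(discr K : ℝ)| ^ (1 / 2 - δ1 : ℝ)) := by ring
        _ ≤ C * |(discr k : ℝ)| ^ C * |(discr K : ℝ)| ^ (1 / 2 - δ) := by
            have h12 : C1 * C0 ^ C1 ≤ C := by rw [hC]; linarith
            gcongr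
    · have h8 := hsub E hE2 hodd hj
      have h9 : |(discr K : ℝ)| ≤ (C0 * |(discr k : ℝ)| ^ C0) ^ (2 / η : ℝ) := by
        have h10 : |(discr K : ℝ)| ^ (η / 2) * |(discr K : ℝ)| ^ (η / 2) ≤
            (C0 * |(discr k : ℝ)| ^ C0) * |(discr K : ℝ)| ^ (η / 2) := by
          rw [← Real.rpow_add hD0, add_halves]
          refine (h8.trans hEs).trans ?_
          apply mul_le_mul_of_nonneg_left _ hA0.le
          exact Real.rpow_le_rpow_of_exponent_le hD1 hη2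
        have h12 : |(discr K : ℝ)| ^ (η / 2) ≤ C0 * |(discr k : ℝ)| ^ C0 :=
          le_of_mul_le_mul_right h10 (by positivity)
        calc |(discr K : ℝ)| = (|(discr K : ℝ)| ^ (η / 2)) ^ (2 / η : ℝ) := by
              rw [← Real.rpow_mul hD0.le]
              have h13 : η / 2 * (2 / η) = 1 := by field_simp
              rw [h13, Real.rpow_one]
          _ ≤ _ := Real.rpow_le_rpow (by positivity) h12 (by positivity)
      exact triv_case hD1 hd1 hC2 hC0 (by positivity) (h2 K hKm) h9 C δ (by rw [hC]; linarith)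
        (by rw [hC]; linarith) hδh

theorem evu : S_EVU := evu_of GE.ge Pool.Agent.K1H39.GE.t_SUB ger
theorem cuu : S_CUU := cuu_of GE.ge Pool.Agent.K1H39.GE.t_SUB ger

end Pool.Agent.K1H79.TW
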