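import Pool.Agent.K1H79.TW.Step
import Pool.Agent.K1H79.TW.Stm

/-! # Towers (helper79) -/

set_option autoImplicit false

namespace Pool.Agent.K1H79.TW

open NumberField

/-- one step, uniformly for all degrees at most `n` -/
def S_STEP : Prop := ∀ (n : ℕ) (η : ℝ), 0 < η → ∃ δ C : ℝ, 0 < δ ∧ δ ≤ 1 / 2 ∧ 1 ≤ C ∧
  ∀ (k E : Type) [Field k] [NumberField k] [Field E] [NumberField E] [Algebra k E],
    Module.finrank ℚ E ≤ n → GE.NoOm E → (Module.finrank k E = 3 ∨ (Even (Module.finrank k E) ∧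
      ∀ F : IntermediateField ℚ E, (∀ x : k, algebraMap k E x ∈ F) → Odd (Module.finrank F E) →
        5 ≤ Module.finrank F E → |(discr E : ℝ)| ^ η ≤ |(discr F : ℝ)|)) →
    (h3 E : ℝ) ≤ C * |(discr k : ℝ)| ^ C * |(discr E : ℝ)| ^ (1 / 2 - δ : ℝ)

theorem one_le_D' (F : Type) [Field F] [NumberField F] : (1 : ℝ) ≤ |(discr F : ℝ)| := SX.one_le_D F

theorem step_of (h1 : S_EVU) (h2 : S_CUU) : S_STEP := by
  intro n η hη
  have key1 : ∀ p : ℕ × ℕ, ∃ δ C : ℝ, 0 < δ ∧ 0 < C ∧ (0 < p.1 → Even p.2 → 0 < p.2 →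
      ∀ (k K : Type) [Field k] [NumberField k] [Field K] [NumberField K] [Algebra k K],
      Module.finrank ℚ k = p.1 → Module.finrank k K = p.2 → GE.NoOm K →
      (∀ F : IntermediateField ℚ K, (∀ x : k, algebraMap k K x ∈ F) → Odd (Module.finrank F K) →
        5 ≤ Module.finrank F K → |(discr K : ℝ)| ^ η ≤ |(discr F : ℝ)|) →
      (SX.h3 K : ℝ) ≤ C * |(discr k : ℝ)| ^ C * |(discr K : ℝ)| ^ (1 / 2 - δ : ℝ)) := by
    intro p
    by_cases hp : 0 < p.1 ∧ Even p.2 ∧ 0 < p.2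
    · obtain ⟨δ, C, hδ, hC, h⟩ := h1 p.1 p.2 hp.1 hp.2.1 hp.2.2 η hη
      exact ⟨δ, C, hδ, hC, fun _ _ _ => h⟩
    · exact ⟨1, 1, one_pos, one_pos, fun a b c => absurd ⟨a, b, c⟩ hp⟩
  have key2 : ∀ r : ℕ, ∃ δ C : ℝ, 0 < δ ∧ 0 < C ∧ (0 < r →
      ∀ (k K : Type) [Field k] [NumberField k] [Field K] [NumberField K] [Algebra k K],
      Module.finrank ℚ k = r → Module.finrank k K = 3 → GE.NoOm K →
      (SX.h3 K : ℝ) ≤ C * |(discr k : ℝ)| ^ C * |(discr K : ℝ)| ^ (1 / 2 - δ : ℝ)) := by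
    intro r
    by_cases hr : 0 < r
    · obtain ⟨δ, C, hδ, hC, h⟩ := h2 r hr
      exact ⟨δ, C, hδ, hC, fun _ => h⟩
    · exact ⟨1, 1, one_pos, one_pos, fun a => absurd a hr⟩
  choose δe Ce hδe hCe he using key1
  choose δc Cc hδc hCc hc using key2
  -- the constants
  have hmin : ∀ (ι : Type) (S : Finset ι) (f : ι → ℝ), (∀ i, 0 < f i) → ∃ δ : ℝ, 0 < δ ∧ ∀ i ∈ S, δ ≤ f i := by
    classical
    intro ι S f hf
    induction S using Finset.induction_on with
    | empty => exact ⟨1, one_pos, fun i hi => absurd hi (Finset.notMem_empty i)⟩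
    | insert a S ha ih =>
      obtain ⟨δ, hδ, h⟩ := ih
      refine ⟨min δ (f a), lt_min hδ (hf a), fun i hi => ?_⟩
      rcases Finset.mem_insert.1 hi with rfl | h3
      · exact min_le_right _ _
      · exact (min_le_left _ _).trans (h i h3)
  obtain ⟨δ1, hδ1, hδ1'⟩ := hmin _ (Finset.range (n + 1) ×ˢ Finset.range (n + 1)) δe hδe
  obtain ⟨δ2, hδ2, hδ2'⟩ := hmin _ (Finset.range (n + 1)) δc hδc
  obtain ⟨C, hC⟩ : ∃ C : ℝ, C = 1 + ∑ p ∈ Finset.range (n + 1) ×ˢ Finset.range (n + 1), Ce p +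
    ∑ r ∈ Finset.range (n + 1), Cc r := ⟨_, rfl⟩
  have hs1 : 0 ≤ ∑ p ∈ Finset.range (n + 1) ×ˢ Finset.range (n + 1), Ce p :=
    Finset.sum_nonneg fun p _ => (hCe p).le
  have hs2 : 0 ≤ ∑ r ∈ Finset.range (n + 1), Cc r := Finset.sum_nonneg fun p _ => (hCc p).le
  have hC0 : 0 < C := by rw [hC]; linarith
  refine ⟨min (min δ1 δ2) (1 / 2), C, by positivity, min_le_right _ _, by rw [hC]; linarith, ?_⟩
  have hd1 : min (min δ1 δ2) (1 / 2) ≤ δ1 := (min_le_left _ _).trans (min_le_left _ _)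
  have hd2 : min (min δ1 δ2) (1 / 2) ≤ δ2 := (min_le_left _ _).trans (min_le_right _ _)
  intro k E _ _ _ _ _ hE hno hcase
  have hfin : FiniteDimensional k E := FiniteDimensional.right ℚ k E
  have hmul : Module.finrank ℚ k * Module.finrank k E = Module.finrank ℚ E := Module.finrank_mul_finrank _ _ _
  have hk0 : 0 < Module.finrank ℚ k := Module.finrank_pos
  have hE0 : 0 < Module.finrank k E := Module.finrank_pos
  have hk1 : Module.finrank ℚ k ≤ n := by
    refine le_trans ?_ hE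
    rw [← hmul]
    exact Nat.le_mul_of_pos_right _ hE0
  have hk2 : Module.finrank k E ≤ n := by
    refine le_trans ?_ hE
    rw [← hmul]
    exact Nat.le_mul_of_pos_left _ hk0
  have hDE := one_le_D' E
  have hDk := one_le_D' k
  have mono : ∀ (C' δ' : ℝ), 0 < C' → C' ≤ C → min (min δ1 δ2) (1 / 2) ≤ δ' →
      C' * |(discr k : ℝ)| ^ C' * |(discr E : ℝ)| ^ (1 / 2 - δ' : ℝ) ≤
      C * |(discr k : ℝ)| ^ C * |(discr E : ℝ)| ^ (1 / 2 - min (min δ1 δ2) (1 / 2) : ℝ) := by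
    intro C' δ' h0 h1 h2
    have h3 : |(discr k : ℝ)| ^ C' ≤ |(discr k : ℝ)| ^ C := Real.rpow_le_rpow_of_exponent_le hDk h1
    have h4 : |(discr E : ℝ)| ^ (1 / 2 - δ' : ℝ) ≤ |(discr E : ℝ)| ^ (1 / 2 - min (min δ1 δ2) (1 / 2) : ℝ) :=
      Real.rpow_le_rpow_of_exponent_le hDE (by linarith)
    gcongr
  rcases hcase with h3 | ⟨hev, hF⟩
  · have hmem : Module.finrank ℚ k ∈ Finset.range (n + 1) := Finset.mem_range.2 (by omega)
    refine (hc (Module.finrank ℚ k) hk0 k E rfl h3 hno).trans (mono _ _ (hCc _) ?_ (hd2.trans (hδ2' _ hmem)))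
    have := Finset.single_le_sum (fun r _ => (hCc r).le) hmem
    rw [hC]
    linarith
  · have hmem : (Module.finrank ℚ k, Module.finrank k E) ∈ Finset.range (n + 1) ×ˢ Finset.range (n + 1) :=
      Finset.mem_product.2 ⟨Finset.mem_range.2 (by simpa using (by omega : Module.finrank ℚ k < n + 1)),
        Finset.mem_range.2 (by simpa using (by omega : Module.finrank k E < n + 1))⟩
    refine (he (Module.finrank ℚ k, Module.finrank k E) hk0 hev hE0 k E rfl rfl hno hF).trans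
      (mono _ _ (hCe _) ?_ (hd1.trans (hδ1' _ hmem)))
    have := Finset.single_le_sum (fun r _ => (hCe r).le) hmem
    rw [hC]
    linarith

/-- an admissible step in a tower of subfields of `K` -/
def Adm {K : Type} [Field K] [NumberField K] (η : ℝ) (A B : IntermediateField ℚ K) : Prop :=
  A ≤ B ∧ (Module.finrank A K = 3 * Module.finrank B K ∨ ∃ d : ℕ, Even d ∧ 0 < d ∧
    Module.finrank A K = d * Module.finrank B K ∧
    ∀ G : IntermediateField ℚ K, A ≤ G → G ≤ B → ∀ e : ℕ, Odd e → 5 ≤ e →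
      Module.finrank G K = e * Module.finrank B K → |(discr B : ℝ)| ^ η ≤ |(discr G : ℝ)|)

/-- **towers** -/
def S_TOW : Prop := ∀ (n : ℕ) (η : ℝ), 0 < η → ∃ τ δ C : ℝ, 0 < τ ∧ 0 < δ ∧ 0 < C ∧
  ∀ (K : Type) [Field K] [NumberField K], Module.finrank ℚ K = n → GE.NoOm K →
    ∀ (j : ℕ) (F : ℕ → IntermediateField ℚ K), |(discr (F 0) : ℝ)| ≤ |(discr K : ℝ)| ^ τ → F j = ⊤ →
      (∀ i < j, Adm η (F i) (F (i + 1))) →
      (h3 K : ℝ) ≤ C * |(discr K : ℝ)| ^ (1 / 2 - δ : ℝ)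

/-- the step from a subfield, inside `K` -/
theorem step_in {n : ℕ} {η : ℝ} {δ C : ℝ}
    (h : ∀ (k E : Type) [Field k] [NumberField k] [Field E] [NumberField E] [Algebra k E],
      Module.finrank ℚ E ≤ n → GE.NoOm E → (Module.finrank k E = 3 ∨ (Even (Module.finrank k E) ∧
        ∀ F : IntermediateField ℚ E, (∀ x : k, algebraMap k E x ∈ F) → Odd (Module.finrank F E) →
          5 ≤ Module.finrank F E → |(discr E : ℝ)| ^ η ≤ |(discr F : ℝ)|)) →
      (h3 E : ℝ) ≤ C * |(discr k : ℝ)| ^ C * |(discr E : ℝ)| ^ (1 / 2 - δ : ℝ))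
    {K : Type} [Field K] [NumberField K] (hK : Module.finrank ℚ K = n) (hno : GE.NoOm K)
    (A B : IntermediateField ℚ K) (hAB : Adm η A B) :
    (h3 B : ℝ) ≤ C * |(discr A : ℝ)| ^ C * |(discr B : ℝ)| ^ (1 / 2 - δ : ℝ) := by
  letI : Algebra A B := (IntermediateField.inclusion hAB.1).toRingHom.toAlgebra
  have hB0 : 0 < Module.finrank B K := Module.finrank_pos
  have hA0 : 0 < Module.finrank A K := Module.finrank_pos
  have hBn : Module.finrank ℚ B * Module.finrank B K = n := by rw [Module.finrank_mul_finrank, hK]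
  have hAn : Module.finrank ℚ A * Module.finrank A K = n := by rw [Module.finrank_mul_finrank, hK]
  have hfin : FiniteDimensional A B := FiniteDimensional.right ℚ A B
  have hABn : Module.finrank ℚ A * Module.finrank A B = Module.finrank ℚ B := Module.finrank_mul_finrank _ _ _
  have hQA0 : 0 < Module.finrank ℚ A := Module.finrank_pos
  have hrel : Module.finrank A K = Module.finrank A B * Module.finrank B K := by
    apply Nat.eq_of_mul_eq_mul_left hQA0
    rw [hAn, ← mul_assoc, hABn, hBn]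
  refine h A B ?_ (SX.noOm_sub hno) ?_
  · rw [← hBn]
    exact Nat.le_mul_of_pos_right _ hB0
  · rcases hAB.2 with h3 | ⟨d, hd, hd0, hdK, hG⟩
    · left
      rw [hrel] at h3
      exact Nat.eq_of_mul_eq_mul_right hB0 h3
    · right
      have hd1 : Module.finrank A B = d := by
        rw [hrel] at hdK
        exact Nat.eq_of_mul_eq_mul_right hB0 hdK
      refine ⟨by rw [hd1]; exact hd, ?_⟩
      intro F hF hodd h5
      have hlift : IntermediateField.lift F ≤ B := IntermediateField.lift_le F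
      have hAG : A ≤ IntermediateField.lift F := by
        intro x hx
        have h6 := hF ⟨x, hx⟩
        have h7 := (IntermediateField.mem_lift (E := F) (algebraMap A B ⟨x, hx⟩)).2 h6
        exact h7
      have hQ : Module.finrank ℚ (IntermediateField.lift F) = Module.finrank ℚ F :=
        (IntermediateField.liftAlgEquiv F).toLinearEquiv.finrank_eq.symm
      have hD : discr (IntermediateField.lift F) = discr F :=
        (discr_eq_discr_of_algEquiv _ (IntermediateField.liftAlgEquiv F)).symm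
      have h8 : Module.finrank ℚ F * Module.finrank F B = Module.finrank ℚ B := Module.finrank_mul_finrank _ _ _
      have h9 : Module.finrank ℚ (IntermediateField.lift F) * Module.finrank (IntermediateField.lift F) K = n := by
        rw [Module.finrank_mul_finrank, hK]
      have h10 : 0 < Module.finrank ℚ F := Module.finrank_pos
      have h11 := hG (IntermediateField.lift F) hAG hlift (Module.finrank F B) hodd h5 (by
        apply Nat.eq_of_mul_eq_mul_left h10
        rw [← hQ, h9, hQ, ← mul_assoc, h8, hBn])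
      rw [hD] at h11
      exact h11

theorem adm_two {K : Type} [Field K] [NumberField K] {η : ℝ} {A B : IntermediateField ℚ K} (h : Adm η A B) :
    2 * Module.finrank B K ≤ Module.finrank A K := by
  rcases h.2 with h3 | ⟨d, hd, hd0, hdK, -⟩
  · omega
  · rw [hdK]
    have : 2 ≤ d := by
      obtain ⟨r, hr⟩ := hd
      omega
    exact Nat.mul_le_mul_right _ this

theorem len_le {K : Type} [Field K] [NumberField K] {η : ℝ} {j : ℕ} {F : ℕ → IntermediateField ℚ K}
    (h : ∀ i < j, Adm η (F i) (F (i + 1))) : ∀ i, i ≤ j → 2 ^ i * Module.finrank (F i) K ≤ Module.finrank (F 0) K := by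
  intro i
  induction i with
  | zero => intro _; simp
  | succ i ih =>
    intro hi
    have h1 := ih (by omega)
    have h2 := adm_two (h i (by omega))
    calc 2 ^ (i + 1) * Module.finrank (F (i + 1)) K = 2 ^ i * (2 * Module.finrank (F (i + 1)) K) := by ring
      _ ≤ 2 ^ i * Module.finrank (F i) K := Nat.mul_le_mul_left _ h2
      _ ≤ _ := h1

theorem tow_of (hS : S_STEP) (hT : S_T) (hV : SX.S_TRIV) : S_TOW := by
  intro n η hη
  obtain ⟨δ, C0, hδ, hδ2, hC0, hst⟩ := hS n η hη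
  obtain ⟨C2, hC2, hV⟩ := hV n
  obtain ⟨M, hM⟩ : ∃ M : ℝ, M = (2 + C0) / δ := ⟨_, rfl⟩
  have hM1 : 1 ≤ M := by
    rw [hM, le_div_iff₀ hδ]
    linarith
  have hM0 : 0 < M := by linarith
  have hMδ : M * δ = 2 + C0 := by rw [hM]; field_simp
  obtain ⟨τ, hτ⟩ : ∃ τ : ℝ, τ = 1 / (2 * M ^ n) := ⟨_, rfl⟩
  have hτ0 : 0 < τ := by rw [hτ]; positivity
  obtain ⟨C1, hC1, hT⟩ := hT n τ hτ0
  refine ⟨τ, min τ (1 / 2), C1 * C0 + C2, hτ0, by positivity, by positivity, ?_⟩
  intro K _ _ hK hno j F hF0 hFj hF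
  have hD1 := one_le_D' K
  have hD0 : 0 < |(discr K : ℝ)| := by linarith
  have hδm : min τ (1 / 2) ≤ τ := min_le_left _ _
  have hjn : j ≤ n := by
    have h1 := len_le hF j le_rfl
    have h2 : 0 < Module.finrank (F j) K := Module.finrank_pos
    have h3 : Module.finrank ℚ (F 0) * Module.finrank (F 0) K = n := by rw [Module.finrank_mul_finrank, hK]
    have h4 : 0 < Module.finrank ℚ (F 0) := Module.finrank_pos
    have h5 : 2 ^ j ≤ n := by
      calc 2 ^ j ≤ 2 ^ j * Module.finrank (F j) K := Nat.le_mul_of_pos_right _ h2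
        _ ≤ Module.finrank (F 0) K := h1
        _ ≤ n := by rw [← h3]; exact Nat.le_mul_of_pos_left _ h4
    exact (Nat.lt_two_pow_self).le.trans h5
  -- the claim
  by_contra hcon
  have hcl : ∀ i, i ≤ j → |(discr (F i) : ℝ)| ≤ |(discr K : ℝ)| ^ (τ * M ^ i) := by
    intro i
    induction i with
    | zero => intro _; simpa using hF0
    | succ i ih =>
      intro hi
      have h1 := ih (by omega)
      by_contra hlt
      rw [not_le] at hlt
      apply hcon
      have hA := one_le_D' (F i)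
      have hB := one_le_D' (F (i + 1))
      have hB0 : 0 < |(discr (F (i + 1)) : ℝ)| := by linarith
      have h2 := step_in hst hK hno (F i) (F (i + 1)) (hF i (by omega))
      have h3 := hT (F (i + 1)) K hK
      have hMi : 1 ≤ M ^ i := one_le_pow₀ hM1
      -- `D_A^C0 ≤ D^(C0 τ M^i)`
      have h4 : |(discr (F i) : ℝ)| ^ C0 ≤ |(discr K : ℝ)| ^ (C0 * (τ * M ^ i)) := by
        rw [mul_comm C0, Real.rpow_mul hD0.le]
        exact Real.rpow_le_rpow (abs_nonneg _) h1 (by linarith)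
      -- `D_B^(-δ) ≤ D^(-δ τ M^(i+1))`
      have h5 : |(discr (F (i + 1)) : ℝ)| ^ (-δ) ≤ |(discr K : ℝ)| ^ (-((2 + C0) * (τ * M ^ i))) := by
        have h6 : |(discr (F (i + 1)) : ℝ)| ^ (-δ) ≤ (|(discr K : ℝ)| ^ (τ * M ^ (i + 1))) ^ (-δ) :=
          Real.rpow_le_rpow_of_nonpos (by positivity) hlt.le (by linarith)
        rw [← Real.rpow_mul hD0.le] at h6
        have h7 : τ * M ^ (i + 1) * (-δ) = -((2 + C0) * (τ * M ^ i)) := by
          rw [← hMδ]; ring
        rwa [h7] at h6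
      have h8 : √(|(discr K : ℝ)| / |(discr (F (i + 1)) : ℝ)|) * |(discr (F (i + 1)) : ℝ)| ^ (1 / 2 - δ : ℝ) =
          |(discr K : ℝ)| ^ (1 / 2 : ℝ) * |(discr (F (i + 1)) : ℝ)| ^ (-δ) := by
        rw [Real.sqrt_eq_rpow, Real.div_rpow hD0.le hB0.le, div_mul_eq_mul_div, mul_div_assoc,
          ← Real.rpow_sub hB0]
        congr 2
        ring
      calc (TW.h3 K : ℝ) ≤ C1 * |(discr K : ℝ)| ^ τ * √(|(discr K : ℝ)| / |(discr (F (i + 1)) : ℝ)|) *
            TW.h3 (F (i + 1)) := h3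
        _ ≤ C1 * |(discr K : ℝ)| ^ τ * √(|(discr K : ℝ)| / |(discr (F (i + 1)) : ℝ)|) *
            (C0 * |(discr (F i) : ℝ)| ^ C0 * |(discr (F (i + 1)) : ℝ)| ^ (1 / 2 - δ : ℝ)) :=
            mul_le_mul_of_nonneg_left h2 (by positivity)
        _ = C1 * C0 * |(discr K : ℝ)| ^ τ * |(discr (F i) : ℝ)| ^ C0 *
            (√(|(discr K : ℝ)| / |(discr (F (i + 1)) : ℝ)|) * |(discr (F (i + 1)) : ℝ)| ^ (1 / 2 - δ : ℝ)) := by
            ring
        _ = C1 * C0 * |(discr K : ℝ)| ^ τ * |(discr (F i) : ℝ)| ^ C0 *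
            (|(discr K : ℝ)| ^ (1 / 2 : ℝ) * |(discr (F (i + 1)) : ℝ)| ^ (-δ)) := by rw [h8]
        _ ≤ C1 * C0 * |(discr K : ℝ)| ^ τ * |(discr K : ℝ)| ^ (C0 * (τ * M ^ i)) *
            (|(discr K : ℝ)| ^ (1 / 2 : ℝ) * |(discr K : ℝ)| ^ (-((2 + C0) * (τ * M ^ i)))) := by
            have : 0 ≤ C0 := by linarith
            gcongr
        _ = C1 * C0 * |(discr K : ℝ)| ^ (τ + C0 * (τ * M ^ i) + (1 / 2 + -((2 + C0) * (τ * M ^ i)))) := by
            rw [Real.rpow_add hD0 (τ + C0 * (τ * M ^ i)), Real.rpow_add hD0 τ, Real.rpow_add hD0 (1 / 2)]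
            ring
        _ ≤ C1 * C0 * |(discr K : ℝ)| ^ (1 / 2 - min τ (1 / 2) : ℝ) := by
            apply mul_le_mul_of_nonneg_left _ (by positivity)
            apply Real.rpow_le_rpow_of_exponent_le hD1
            nlinarith
        _ ≤ (C1 * C0 + C2) * |(discr K : ℝ)| ^ (1 / 2 - min τ (1 / 2) : ℝ) := by
            apply mul_le_mul_of_nonneg_right _ (by positivity)
            linarith
  -- the end of the tower
  have h1 := hcl j le_rfl
  rw [hFj, GE.discr_top] at h1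
  have h2 : τ * M ^ j ≤ 1 / 2 := by
    have h3 : M ^ j ≤ M ^ n := pow_le_pow_right₀ hM1 hjn
    calc τ * M ^ j ≤ τ * M ^ n := mul_le_mul_of_nonneg_left h3 hτ0.le
      _ = 1 / 2 := by rw [hτ]; field_simp
  have h3 : |(discr K : ℝ)| ≤ 1 := by
    have h4 : |(discr K : ℝ)| ≤ |(discr K : ℝ)| ^ (1 / 2 : ℝ) :=
      h1.trans (Real.rpow_le_rpow_of_exponent_le hD1 h2)
    rw [← Real.sqrt_eq_rpow] at h4
    have h5 := Real.sq_sqrt hD0.le
    nlinarith [Real.sqrt_nonneg |(discr K : ℝ)|]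
  apply hcon
  have h4 : (1 : ℝ) ≤ |(discr K : ℝ)| ^ (1 / 2 - min τ (1 / 2) : ℝ) :=
    Real.one_le_rpow hD1 (by linarith [min_le_right τ (1 / 2)])
  calc (TW.h3 K : ℝ) ≤ C2 * |(discr K : ℝ)| := hV K hK
    _ ≤ C2 * 1 := mul_le_mul_of_nonneg_left h3 hC2.le
    _ ≤ (C1 * C0 + C2) * |(discr K : ℝ)| ^ (1 / 2 - min τ (1 / 2) : ℝ) := by
        have h5 : 0 < C1 * C0 := by positivity
        nlinarith

end Pool.Agent.K1H79.TW
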