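import Pool.Agent.K1H79.TW.Tower

/-! # Towers below a subfield of large discriminant (helper79) -/

set_option autoImplicit false

namespace Pool.Agent.K1H79.TW

open NumberField

/-- **towers**, general form -/
def S_TOW2 : Prop := ∀ (n : ℕ) (η : ℝ), 0 < η → ∃ δ C : ℝ, 0 < δ ∧ 0 < C ∧
  ∀ (K : Type) [Field K] [NumberField K], Module.finrank ℚ K = n →
    ∀ (j : ℕ) (F : ℕ → IntermediateField ℚ K), GE.NoOm (F j) → |(discr K : ℝ)| ^ η ≤ |(discr (F j) : ℝ)| →
      (∀ i < j, Adm η (F i) (F (i + 1))) →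
      (h3 K : ℝ) ≤ C * |(discr (F 0) : ℝ)| ^ C * |(discr K : ℝ)| ^ (1 / 2 - δ : ℝ)

/-- the step from a subfield, inside `K` -/
theorem step_in' {n : ℕ} {η : ℝ} {δ C : ℝ}
    (h : ∀ (k E : Type) [Field k] [NumberField k] [Field E] [NumberField E] [Algebra k E],
      Module.finrank ℚ E ≤ n → GE.NoOm E → (Module.finrank k E = 3 ∨ (Even (Module.finrank k E) ∧
        ∀ F : IntermediateField ℚ E, (∀ x : k, algebraMap k E x ∈ F) → Odd (Module.finrank F E) →
          5 ≤ Module.finrank F E → |(discr E : ℝ)| ^ η ≤ |(discr F : ℝ)|)) →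
      (h3 E : ℝ) ≤ C * |(discr k : ℝ)| ^ C * |(discr E : ℝ)| ^ (1 / 2 - δ : ℝ))
    {K : Type} [Field K] [NumberField K] (hK : Module.finrank ℚ K = n)
    (A B : IntermediateField ℚ K) (hno : GE.NoOm B) (hAB : Adm η A B) :
    (h3 B : ℝ) ≤ C * |(discr A : ℝ)| ^ C * |(discr B : ℝ)| ^ (1 / 2 - δ : ℝ) := by
  letI : Algebra A B := (IntermediateField.inclusion hAB.1).toRingHom.toAlgebra
  have hB0 : 0 < Module.finrank B K := Module.finrank_pos
  have hA0 : 0 < Module.finrank A K := Module.finrank_pos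
  have hBn : Module.finrank ℚ B * Module.finrank B K = n := by rw [Module.finrank_mul_finrank, hK]
  have hAn : Module.finrank ℚ A * Module.finrank A K = n := by rw [Module.finrank_mul_finrank, hK]
  have hfin : FiniteDimensional A B := FiniteDimensional.right ℚ A B
  have hABn : Module.finrank ℚ A * Module.finrank A B = Module.finrank ℚ B := Module.finrank_mul_finrank _ _ _
  have hQA0 : 0 < Module.finrank ℚ A := Module.finrank_pos
  have hrel : Module.finrank A K = Module.finrank A B * Module.finrank B K := by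
    apply Nat.eq_of_mul_eq_mul_left hQA0
    rw [hAn, ← mul_assoc, hABn, hBn]
  refine h A B ?_ hno ?_
  · rw [← hBn]
    exact Nat.le_mul_of_pos_right _ hB0
  · rcases hAB.2 with h3 | ⟨d, hd, hd0, hdK, hG⟩
    · left
      rw [hrel] at h3
      exact Nat.eq_of_mul_eq_mul_right hB0 h3
    · right
      have hd1 : Module.finrank A B = d := by
        rw [hrel] at hdK
        exact Nat.eq_of_mul_eq_mul_right hB0 hdK
      refine ⟨by rw [hd1]; exact hd, ?_⟩
      intro F hF hodd h5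
      have hlift : IntermediateField.lift F ≤ B := IntermediateField.lift_le F
      have hAG : A ≤ IntermediateField.lift F := by
        intro x hx
        have h6 := hF ⟨x, hx⟩
        have h7 := (IntermediateField.mem_lift (E := F) (algebraMap A B ⟨x, hx⟩)).2 h6
        exact h7
      have hQ : Module.finrank ℚ (IntermediateField.lift F) = Module.finrank ℚ F :=
        (IntermediateField.liftAlgEquiv F).toLinearEquiv.finrank_eq.symm
      have hD : discr (IntermediateField.lift F) = discr F :=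
        (discr_eq_discr_of_algEquiv _ (IntermediateField.liftAlgEquiv F)).symm
      have h8 : Module.finrank ℚ F * Module.finrank F B = Module.finrank ℚ B := Module.finrank_mul_finrank _ _ _
      have h9 : Module.finrank ℚ (IntermediateField.lift F) * Module.finrank (IntermediateField.lift F) K = n := by
        rw [Module.finrank_mul_finrank, hK]
      have h10 : 0 < Module.finrank ℚ F := Module.finrank_pos
      have h11 := hG (IntermediateField.lift F) hAG hlift (Module.finrank F B) hodd h5 (by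
        apply Nat.eq_of_mul_eq_mul_left h10
        rw [← hQ, h9, hQ, ← mul_assoc, h8, hBn])
      rw [hD] at h11
      exact h11

theorem noOm_le {K : Type} [Field K] [NumberField K] {A B : IntermediateField ℚ K} (h : A ≤ B)
    (hB : GE.NoOm B) : GE.NoOm A := by
  intro z hz
  apply hB (IntermediateField.inclusion h z)
  rw [← map_pow, ← map_add]
  have : IntermediateField.inclusion h (z ^ 2 + z) + 1 = IntermediateField.inclusion h (z ^ 2 + z + 1) := by
    rw [map_add (IntermediateField.inclusion h) (z ^ 2 + z) 1, map_one]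
  rw [this, hz, map_zero]

theorem chain_le {K : Type} [Field K] [NumberField K] {j : ℕ} {F : ℕ → IntermediateField ℚ K}
    (h : ∀ i < j, F i ≤ F (i + 1)) : ∀ m i, i + m = j → F i ≤ F j := by
  intro m
  induction m with
  | zero => intro i hi; rw [← hi]; simp
  | succ m ih =>
    intro i hi
    exact (h i (by omega)).trans (ih (i + 1) (by omega))

theorem tow2_of (hS : S_STEP) (hT : S_T) (hV : SX.S_TRIV) : S_TOW2 := by
  intro n η hη
  obtain ⟨δ, C0, hδ, hδ2, hC0, hst⟩ := hS n η hη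
  obtain ⟨C2, hC2, hV⟩ := hV n
  obtain ⟨M, hM⟩ : ∃ M : ℝ, M = (2 + C0) / δ := ⟨_, rfl⟩
  have hM1 : 1 ≤ M := by
    rw [hM, le_div_iff₀ hδ]
    linarith
  have hM0 : 0 < M := by linarith
  have hMδ : M * δ = 2 + C0 := by rw [hM]; field_simp
  obtain ⟨τ, hτ⟩ : ∃ τ : ℝ, τ = η / (2 * M ^ n) := ⟨_, rfl⟩
  have hτ0 : 0 < τ := by rw [hτ]; positivity
  obtain ⟨C1, hC1, hT⟩ := hT n τ hτ0
  obtain ⟨δ', hδ'⟩ : ∃ δ' : ℝ, δ' = min τ (1 / 2) := ⟨_, rfl⟩
  have hδ'0 : 0 < δ' := by rw [hδ']; positivity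
  have hδ'τ : δ' ≤ τ := by rw [hδ']; exact min_le_left _ _
  have hδ'2 : δ' ≤ 1 / 2 := by rw [hδ']; exact min_le_right _ _
  obtain ⟨C, hC⟩ : ∃ C : ℝ, C = C1 * C0 + C2 + 1 / τ := ⟨_, rfl⟩
  have hCC : 0 < C1 * C0 := by positivity
  have hτi : 0 < 1 / τ := by positivity
  have hCpos : 0 < C := by rw [hC]; positivity
  refine ⟨δ', C, hδ'0, hCpos, ?_⟩
  intro K _ _ hK j F hno hFj hF
  have hD1 := one_le_D' K
  have hD0 : 0 < |(discr K : ℝ)| := by linarith
  have hF01 := one_le_D' (F 0)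
  have hjn : j ≤ n := by
    have h1 := len_le hF j le_rfl
    have h2 : 0 < Module.finrank (F j) K := Module.finrank_pos
    have h3 : Module.finrank ℚ (F 0) * Module.finrank (F 0) K = n := by rw [Module.finrank_mul_finrank, hK]
    have h4 : 0 < Module.finrank ℚ (F 0) := Module.finrank_pos
    have h5 : 2 ^ j ≤ n := by
      calc 2 ^ j ≤ 2 ^ j * Module.finrank (F j) K := Nat.le_mul_of_pos_right _ h2
        _ ≤ Module.finrank (F 0) K := h1
        _ ≤ n := by rw [← h3]; exact Nat.le_mul_of_pos_left _ h4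
    exact (Nat.lt_two_pow_self).le.trans h5
  have hDp : (1 : ℝ) ≤ |(discr K : ℝ)| ^ (1 / 2 - δ' : ℝ) := Real.one_le_rpow hD1 (by linarith)
  -- the base field has a large discriminant: trivial bound
  by_cases hF0 : |(discr (F 0) : ℝ)| ≤ |(discr K : ℝ)| ^ τ
  swap
  · rw [not_le] at hF0
    have h1 : |(discr K : ℝ)| ≤ |(discr (F 0) : ℝ)| ^ C := by
      calc |(discr K : ℝ)| = (|(discr K : ℝ)| ^ τ) ^ (1 / τ) := by
            rw [← Real.rpow_mul hD0.le, mul_one_div_cancel hτ0.ne', Real.rpow_one]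
        _ ≤ |(discr (F 0) : ℝ)| ^ (1 / τ) := Real.rpow_le_rpow (by positivity) hF0.le (by positivity)
        _ ≤ |(discr (F 0) : ℝ)| ^ C := Real.rpow_le_rpow_of_exponent_le hF01 (by rw [hC]; linarith)
    calc (TW.h3 K : ℝ) ≤ C2 * |(discr K : ℝ)| := hV K hK
      _ ≤ C * |(discr (F 0) : ℝ)| ^ C := by
          have h2 : C2 ≤ C := by rw [hC]; linarith
          gcongr
      _ ≤ _ := le_mul_of_one_le_right (by positivity) hDp
  -- the claim
  by_contra hcon
  have hF0C : (1 : ℝ) ≤ |(discr (F 0) : ℝ)| ^ C := Real.one_le_rpow hF01 hCpos.le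
  have hcl : ∀ i, i ≤ j → |(discr (F i) : ℝ)| ≤ |(discr K : ℝ)| ^ (τ * M ^ i) := by
    intro i
    induction i with
    | zero => intro _; simpa using hF0
    | succ i ih =>
      intro hi
      have h1 := ih (by omega)
      by_contra hlt
      rw [not_le] at hlt
      apply hcon
      have hA := one_le_D' (F i)
      have hB := one_le_D' (F (i + 1))
      have hB0 : 0 < |(discr (F (i + 1)) : ℝ)| := by linarith
      have hnoB : GE.NoOm (F (i + 1)) :=
        noOm_le (chain_le (fun i hi => (hF i hi).1) (j - (i + 1)) (i + 1) (by omega)) hno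
      have h2 := step_in' hst hK (F i) (F (i + 1)) hnoB (hF i (by omega))
      have h3 := hT (F (i + 1)) K hK
      have hMi : 1 ≤ M ^ i := one_le_pow₀ hM1
      -- `D_A^C0 ≤ D^(C0 τ M^i)`
      have h4 : |(discr (F i) : ℝ)| ^ C0 ≤ |(discr K : ℝ)| ^ (C0 * (τ * M ^ i)) := by
        rw [mul_comm C0, Real.rpow_mul hD0.le]
        exact Real.rpow_le_rpow (abs_nonneg _) h1 (by linarith)
      -- `D_B^(-δ) ≤ D^(-δ τ M^(i+1))`
      have h5 : |(discr (F (i + 1)) : ℝ)| ^ (-δ) ≤ |(discr K : ℝ)| ^ (-((2 + C0) * (τ * M ^ i))) := by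
        have h6 : |(discr (F (i + 1)) : ℝ)| ^ (-δ) ≤ (|(discr K : ℝ)| ^ (τ * M ^ (i + 1))) ^ (-δ) :=
          Real.rpow_le_rpow_of_nonpos (by positivity) hlt.le (by linarith)
        rw [← Real.rpow_mul hD0.le] at h6
        have h7 : τ * M ^ (i + 1) * (-δ) = -((2 + C0) * (τ * M ^ i)) := by
          rw [← hMδ]; ring
        rwa [h7] at h6
      have h8 : √(|(discr K : ℝ)| / |(discr (F (i + 1)) : ℝ)|) * |(discr (F (i + 1)) : ℝ)| ^ (1 / 2 - δ : ℝ) =
          |(discr K : ℝ)| ^ (1 / 2 : ℝ) * |(discr (F (i + 1)) : ℝ)| ^ (-δ) := by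
        rw [Real.sqrt_eq_rpow, Real.div_rpow hD0.le hB0.le, div_mul_eq_mul_div, mul_div_assoc,
          ← Real.rpow_sub hB0]
        congr 2
        ring
      calc (TW.h3 K : ℝ) ≤ C1 * |(discr K : ℝ)| ^ τ * √(|(discr K : ℝ)| / |(discr (F (i + 1)) : ℝ)|) *
            TW.h3 (F (i + 1)) := h3
        _ ≤ C1 * |(discr K : ℝ)| ^ τ * √(|(discr K : ℝ)| / |(discr (F (i + 1)) : ℝ)|) *
            (C0 * |(discr (F i) : ℝ)| ^ C0 * |(discr (F (i + 1)) : ℝ)| ^ (1 / 2 - δ : ℝ)) :=
            mul_le_mul_of_nonneg_left h2 (by positivity)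
        _ = C1 * C0 * |(discr K : ℝ)| ^ τ * |(discr (F i) : ℝ)| ^ C0 *
            (√(|(discr K : ℝ)| / |(discr (F (i + 1)) : ℝ)|) * |(discr (F (i + 1)) : ℝ)| ^ (1 / 2 - δ : ℝ)) := by
            ring
        _ = C1 * C0 * |(discr K : ℝ)| ^ τ * |(discr (F i) : ℝ)| ^ C0 *
            (|(discr K : ℝ)| ^ (1 / 2 : ℝ) * |(discr (F (i + 1)) : ℝ)| ^ (-δ)) := by rw [h8]
        _ ≤ C1 * C0 * |(discr K : ℝ)| ^ τ * |(discr K : ℝ)| ^ (C0 * (τ * M ^ i)) *
            (|(discr K : ℝ)| ^ (1 / 2 : ℝ) * |(discr K : ℝ)| ^ (-((2 + C0) * (τ * M ^ i)))) := by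
            have : 0 ≤ C0 := by linarith
            gcongr
        _ = C1 * C0 * |(discr K : ℝ)| ^ (τ + C0 * (τ * M ^ i) + (1 / 2 + -((2 + C0) * (τ * M ^ i)))) := by
            rw [Real.rpow_add hD0 (τ + C0 * (τ * M ^ i)), Real.rpow_add hD0 τ, Real.rpow_add hD0 (1 / 2)]
            ring
        _ ≤ C1 * C0 * |(discr K : ℝ)| ^ (1 / 2 - δ' : ℝ) := by
            apply mul_le_mul_of_nonneg_left _ (by positivity)
            apply Real.rpow_le_rpow_of_exponent_le hD1
            nlinarith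
        _ ≤ C * |(discr (F 0) : ℝ)| ^ C * |(discr K : ℝ)| ^ (1 / 2 - δ' : ℝ) := by
            apply mul_le_mul_of_nonneg_right _ (by positivity)
            have h9 : C1 * C0 ≤ C := by rw [hC]; linarith
            exact h9.trans (le_mul_of_one_le_right hCpos.le hF0C)
  -- the end of the tower
  have h1 := hFj.trans (hcl j le_rfl)
  have h2 : τ * M ^ j ≤ η / 2 := by
    have h3 : M ^ j ≤ M ^ n := pow_le_pow_right₀ hM1 hjn
    calc τ * M ^ j ≤ τ * M ^ n := mul_le_mul_of_nonneg_left h3 hτ0.le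
      _ = η / 2 := by rw [hτ]; field_simp
  have h3 : |(discr K : ℝ)| ≤ 1 := by
    by_contra h4
    rw [not_le] at h4
    have h5 : |(discr K : ℝ)| ^ (τ * M ^ j) < |(discr K : ℝ)| ^ η :=
      Real.rpow_lt_rpow_of_exponent_lt h4 (by linarith)
    linarith
  apply hcon
  calc (TW.h3 K : ℝ) ≤ C2 * |(discr K : ℝ)| := hV K hK
    _ ≤ C2 * 1 := mul_le_mul_of_nonneg_left h3 hC2.le
    _ ≤ C * |(discr (F 0) : ℝ)| ^ C := by
        have h5 : C2 * 1 ≤ C := by rw [hC]; linarith
        exact h5.trans (le_mul_of_one_le_right hCpos.le hF0C)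
    _ ≤ _ := le_mul_of_one_le_right (by positivity) hDp

end Pool.Agent.K1H79.TW
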